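import Mathlib

/-!
# Sets without convex relations with small coefficients

`Free K S`: the set `S` has no solution of `p x + q y = (p + q) z` with `p, q ≥ 1`, `p + q ≤ K`
and `x ≠ y`. Behrend's construction gives large sets of this kind.
-/

set_option autoImplicit false

namespace Pool.Agent.J6H11.Sk3

open Finset

/-- No element of `S` is a proper convex combination of two others with weights of denominator at
most `K`. -/
def Free (K : ℕ) (S : Finset ℤ) : Prop :=
  ∀ p q : ℤ, 1 ≤ p → 1 ≤ q → p + q ≤ K → ∀ x ∈ S, ∀ y ∈ S, ∀ z ∈ S,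
    p * x + q * y = (p + q) * z → x = y

theorem Free.subset {K : ℕ} {S S' : Finset ℤ} (h : Free K S) (hs : S' ⊆ S) : Free K S' :=
  fun p q hp hq hpq x hx y hy z hz => h p q hp hq hpq x (hs hx) y (hs hy) z (hs hz)

theorem Free.mono {K K' : ℕ} {S : Finset ℤ} (h : Free K S) (hs : K' ≤ K) : Free K' S :=
  fun p q hp hq hpq => h p q hp hq (hpq.trans (by exact_mod_cast hs))

theorem map_lt (D : ℕ) : ∀ (n : ℕ) (y : Fin n → ℕ), (∀ i, y i < D) → Behrend.map D y < D ^ n
  | 0, y, _ => by rw [Behrend.map_zero]; exact Nat.one_pos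
  | n + 1, y, h => by
    rw [Behrend.map_succ']
    have h1 := map_lt D n (y ∘ Fin.succ) (fun i => h _)
    have h2 := h 0
    calc y 0 + Behrend.map D (y ∘ Fin.succ) * D < D + Behrend.map D (y ∘ Fin.succ) * D := by omega
      _ = (Behrend.map D (y ∘ Fin.succ) + 1) * D := by ring
      _ ≤ D ^ n * D := Nat.mul_le_mul_right _ h1
      _ = D ^ (n + 1) := (pow_succ _ _).symm

/-- strict convexity of the sphere -/
theorem convex {r : ℕ} (p q : ℕ) (hp : 1 ≤ p) (hq : 1 ≤ q) (u v w : Fin r → ℕ) (ρ : ℕ)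
    (hu : ∑ i, u i ^ 2 = ρ) (hv : ∑ i, v i ^ 2 = ρ) (hw : ∑ i, w i ^ 2 = ρ)
    (h : ∀ i, p * u i + q * v i = (p + q) * w i) : u = v := by
  have h1 : ∑ i, ((p * u i + q * v i : ℕ) : ℤ) ^ 2 = ∑ i, (((p + q) * w i : ℕ) : ℤ) ^ 2 :=
    Finset.sum_congr rfl fun i _ => by rw [h i]
  have hu' : ∑ i, (u i : ℤ) ^ 2 = ρ := by exact_mod_cast hu
  have hv' : ∑ i, (v i : ℤ) ^ 2 = ρ := by exact_mod_cast hv
  have hw' : ∑ i, (w i : ℤ) ^ 2 = ρ := by exact_mod_cast hw
  have h2 : ∑ i, ((p * u i + q * v i : ℕ) : ℤ) ^ 2 =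
      (p : ℤ) * (p + q) * ∑ i, (u i : ℤ) ^ 2 + (q : ℤ) * (p + q) * ∑ i, (v i : ℤ) ^ 2 -
        (p : ℤ) * q * ∑ i, ((u i : ℤ) - v i) ^ 2 := by
    rw [Finset.mul_sum, Finset.mul_sum, Finset.mul_sum, ← Finset.sum_add_distrib,
      ← Finset.sum_sub_distrib]
    refine Finset.sum_congr rfl fun i _ => ?_
    push_cast
    ring
  have h3 : ∑ i, (((p + q) * w i : ℕ) : ℤ) ^ 2 = ((p : ℤ) + q) ^ 2 * ∑ i, (w i : ℤ) ^ 2 := by
    rw [Finset.mul_sum]
    refine Finset.sum_congr rfl fun i _ => ?_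
    push_cast
    ring
  rw [h2, h3, hu', hv', hw'] at h1
  have h4 : (p : ℤ) * q * ∑ i, ((u i : ℤ) - v i) ^ 2 = 0 := by linear_combination -h1
  have h5 : (p : ℤ) * q ≠ 0 := by
    have h6 : (p : ℤ) ≠ 0 := by exact_mod_cast (by omega : p ≠ 0)
    have h7 : (q : ℤ) ≠ 0 := by exact_mod_cast (by omega : q ≠ 0)
    exact mul_ne_zero h6 h7
  have h6 : ∑ i, ((u i : ℤ) - v i) ^ 2 = 0 := by
    rcases mul_eq_zero.1 h4 with h7 | h7
    · exact absurd h7 h5
    · exact h7
  have h7 := (Finset.sum_eq_zero_iff_of_nonneg (fun i _ => sq_nonneg ((u i : ℤ) - v i))).1 h6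
  funext i
  have h8 := h7 i (Finset.mem_univ i)
  have h9 : (u i : ℤ) - v i = 0 := by simpa using h8
  omega

/-- Behrend's construction. -/
theorem exists_free (K d r : ℕ) (hK : 1 ≤ K) (hd : 1 ≤ d) (hr : 1 ≤ r) :
    ∃ S : Finset ℤ, (∀ x ∈ S, 0 ≤ x ∧ x < ((K * d) ^ r : ℕ)) ∧
      d ^ r ≤ S.card * (r * d ^ 2) ∧ Free K S := by
  obtain ⟨ρ, hρ⟩ := Behrend.exists_large_sphere r d
  have hrd : (0 : ℝ) < ((r * d ^ 2 : ℕ) : ℝ) := by
    exact_mod_cast Nat.mul_pos hr (pow_pos hd 2)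
  rw [div_le_iff₀ hrd] at hρ
  have hρ' : d ^ r ≤ (Behrend.sphere r d ρ).card * (r * d ^ 2) := by exact_mod_cast hρ
  have hlt : ∀ x ∈ Behrend.sphere r d ρ, ∀ i, x i < d := fun x hx i =>
    Behrend.mem_box.1 (Behrend.sphere_subset_box hx) i
  have hsq : ∀ x ∈ Behrend.sphere r d ρ, ∑ i, x i ^ 2 = ρ := fun x hx =>
    (Finset.mem_filter.1 hx).2
  have hKd : d ≤ K * d := Nat.le_mul_of_pos_left d hK
  have hinj : Set.InjOn (fun x : Fin r → ℕ => ((Behrend.map (K * d) x : ℕ) : ℤ))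
      (Behrend.sphere r d ρ : Set (Fin r → ℕ)) := by
    intro x hx y hy hxy
    have h1 : Behrend.map (K * d) x = Behrend.map (K * d) y := Int.ofNat.inj hxy
    exact Behrend.map_injOn (fun i => (hlt x hx i).trans_le hKd)
      (fun i => (hlt y hy i).trans_le hKd) h1
  refine ⟨(Behrend.sphere r d ρ).image fun x => ((Behrend.map (K * d) x : ℕ) : ℤ), ?_, ?_, ?_⟩
  · intro x hx
    obtain ⟨u, hu, rfl⟩ := Finset.mem_image.1 hx
    refine ⟨Int.natCast_nonneg _, ?_⟩
    have := map_lt (K * d) r u (fun i => (hlt u hu i).trans_le hKd)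
    exact_mod_cast this
  · rw [Finset.card_image_of_injOn hinj]
    exact hρ'
  · intro p q hp hq hpq x hx y hy z hz h
    obtain ⟨u, hu, rfl⟩ := Finset.mem_image.1 hx
    obtain ⟨v, hv, rfl⟩ := Finset.mem_image.1 hy
    obtain ⟨w, hw, rfl⟩ := Finset.mem_image.1 hz
    obtain ⟨p', rfl⟩ := Int.eq_ofNat_of_zero_le (by omega : 0 ≤ p)
    obtain ⟨q', rfl⟩ := Int.eq_ofNat_of_zero_le (by omega : 0 ≤ q)
    have hp' : 1 ≤ p' := by exact_mod_cast hp
    have hq' : 1 ≤ q' := by exact_mod_cast hq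
    have hpq' : p' + q' ≤ K := by exact_mod_cast hpq
    have h1 : p' * Behrend.map (K * d) u + q' * Behrend.map (K * d) v =
        (p' + q') * Behrend.map (K * d) w := by exact_mod_cast h
    have h2 : Behrend.map (K * d) (p' • u + q' • v) = Behrend.map (K * d) ((p' + q') • w) := by
      rw [map_add, map_nsmul, map_nsmul, map_nsmul, smul_eq_mul, smul_eq_mul, smul_eq_mul]
      exact h1
    have h3 := Behrend.map_injOn (n := r) (d := K * d) (x₁ := p' • u + q' • v)
      (x₂ := (p' + q') • w)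
      (fun i => by
        have h4 := hlt u hu i
        have h5 := hlt v hv i
        simp only [Pi.add_apply, Pi.smul_apply, smul_eq_mul]
        have h6 : p' * u i < p' * d := Nat.mul_lt_mul_of_pos_left h4 hp'
        have h7 : q' * v i < q' * d := Nat.mul_lt_mul_of_pos_left h5 hq'
        have h8 : (p' + q') * d ≤ K * d := Nat.mul_le_mul_right d hpq'
        nlinarith)
      (fun i => by
        have h4 := hlt w hw i
        simp only [Pi.smul_apply, smul_eq_mul]
        have h6 : (p' + q') * w i < (p' + q') * d := Nat.mul_lt_mul_of_pos_left h4 (by omega)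
        have h8 : (p' + q') * d ≤ K * d := Nat.mul_le_mul_right d hpq'
        omega) h2
    have h4 : ∀ i, p' * u i + q' * v i = (p' + q') * w i := by
      intro i
      have := congrFun h3 i
      simpa using this
    have h5 := convex p' q' hp' hq' u v w ρ (hsq u hu) (hsq v hv) (hsq w hw) h4
    rw [h5]

end Pool.Agent.J6H11.Sk3
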