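import Pool.Agent.J6H11.Sk3.Def

/-!
# Paths of programs
-/

set_option autoImplicit false

namespace Pool.Agent.J6H11.Sk3

open Finset

theorem box_finite (n N : ℕ) : {x : Fin n → ℤ | ∀ i, |x i| ≤ N}.Finite := by
  refine (Set.Finite.pi' (t := fun _ : Fin n => Set.Icc (-(N : ℤ)) N)
    fun _ => Set.finite_Icc _ _).subset ?_
  intro x hx i
  exact ⟨(abs_le.1 (hx i)).1, (abs_le.1 (hx i)).2⟩

theorem values_pos {n : ℕ} {G : Type} [AddCommGroup G] (N : ℕ) (φ : (Fin n → ℤ) →+ G) :
    1 ≤ values N φ := by
  unfold values
  rw [Nat.one_le_iff_ne_zero, Ne, Set.ncard_eq_zero ((box_finite n N).image _)]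
  rw [Set.image_eq_empty]
  intro h
  have : (0 : Fin n → ℤ) ∈ {x : Fin n → ℤ | ∀ i, |x i| ≤ N} := by
    intro i
    simp
  rw [h] at this
  exact this

/-- one step of the pigeonhole principle -/
theorem pigeon_step {n : ℕ} {G : Type} [AddCommGroup G] (N : ℕ) (φ : (Fin n → ℤ) →+ G)
    {α : Type} (F : Finset α) (v : α → Fin n → ℤ) (hv : ∀ J ∈ F, ∀ i, |v J i| ≤ N) :
    ∃ F' ⊆ F, F.card ≤ F'.card * values N φ ∧ ∀ J ∈ F', ∀ J' ∈ F', φ (v J) = φ (v J') := by
  classical
  rcases F.eq_empty_or_nonempty with rfl | hF
  · exact ⟨∅, Finset.Subset.refl _, by simp, by simp⟩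
  let t : Finset G := F.image fun J => φ (v J)
  have ht : t.card ≤ values N φ := by
    unfold values
    rw [← Set.ncard_coe_finset]
    refine Set.ncard_le_ncard ?_ ((box_finite n N).image _)
    intro g hg
    obtain ⟨J, hJ, rfl⟩ := Finset.mem_image.1 (Finset.mem_coe.1 hg)
    exact ⟨v J, hv J hJ, rfl⟩
  have htn : t.Nonempty := hF.image _
  by_contra hcon
  push Not at hcon
  have h1 : ∀ g ∈ t, (F.filter fun J => φ (v J) = g).card * values N φ < F.card := by
    intro g _
    by_contra h2
    push Not at h2
    obtain ⟨J, hJ, J', hJ', h3⟩ := hcon (F.filter fun J => φ (v J) = g) (Finset.filter_subset _ _) h2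
    exact h3 ((Finset.mem_filter.1 hJ).2.trans (Finset.mem_filter.1 hJ').2.symm)
  have h2 : F.card = ∑ g ∈ t, (F.filter fun J => φ (v J) = g).card :=
    Finset.card_eq_sum_card_fiberwise fun J hJ => Finset.mem_image_of_mem _ hJ
  have h3 : (∑ g ∈ t, (F.filter fun J => φ (v J) = g).card) * values N φ < t.card * F.card := by
    rw [Finset.sum_mul, ← smul_eq_mul (t.card), ← Finset.sum_const]
    exact Finset.sum_lt_sum_of_nonempty htn h1
  rw [← h2] at h3
  have h4 : t.card * F.card ≤ F.card * values N φ := by
    rw [mul_comm]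
    exact Nat.mul_le_mul_left _ ht
  omega

namespace Prog

variable {n q : ℕ}

/-- the queries `triple` -/
noncomputable def tri (K p : ℕ) (x : Fin n → ℤ) : Prog n q → List (Fin n × Fin n × Fin n)
  | answer _ => []
  | digits i next => (next (x i % p) (x i / (4 * p))).tri K p x
  | pair i j next => (next (signs K (x i) (x j) 0)).tri K p x
  | triple i j k next => (i, j, k) :: (next (signs K (x i) (x j) (x k))).tri K p x
  | read i next => (next (x i)).tri K p x
  | poly D ψ next => (next (polyval x D ψ)).tri K p x
  | sketch _ φ next => (next (φ x)).tri K p x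

/-- the queries `read` -/
noncomputable def rds (K p : ℕ) (x : Fin n → ℤ) : Prog n q → List (Fin n)
  | answer _ => []
  | digits i next => (next (x i % p) (x i / (4 * p))).rds K p x
  | pair i j next => (next (signs K (x i) (x j) 0)).rds K p x
  | triple i j k next => (next (signs K (x i) (x j) (x k))).rds K p x
  | read i next => i :: (next (x i)).rds K p x
  | poly D ψ next => (next (polyval x D ψ)).rds K p x
  | sketch _ φ next => (next (φ x)).rds K p x

/-- the queries `poly` -/
noncomputable def pars (K p : ℕ) (x : Fin n → ℤ) : Prog n q → List ((D : ℕ) × ((Fin D → Fin n) → (Fin D → ℤ) → ZMod q))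
  | answer _ => []
  | digits i next => (next (x i % p) (x i / (4 * p))).pars K p x
  | pair i j next => (next (signs K (x i) (x j) 0)).pars K p x
  | triple i j k next => (next (signs K (x i) (x j) (x k))).pars K p x
  | read i next => (next (x i)).pars K p x
  | poly D ψ next => ⟨D, ψ⟩ :: (next (polyval x D ψ)).pars K p x
  | sketch _ φ next => (next (φ x)).pars K p x

/-- the product of the numbers of values of the sketches -/
noncomputable def vals (K p N : ℕ) (x : Fin n → ℤ) : Prog n q → ℕ
  | answer _ => 1
  | digits i next => (next (x i % p) (x i / (4 * p))).vals K p N x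
  | pair i j next => (next (signs K (x i) (x j) 0)).vals K p N x
  | triple i j k next => (next (signs K (x i) (x j) (x k))).vals K p N x
  | read i next => (next (x i)).vals K p N x
  | poly D ψ next => (next (polyval x D ψ)).vals K p N x
  | sketch _ φ next => (next (φ x)).vals K p N x * values N φ

/-- the sketches vanish on `v` -/
def Same (K p : ℕ) (x v : Fin n → ℤ) : Prog n q → Prop
  | answer _ => True
  | digits i next => (next (x i % p) (x i / (4 * p))).Same K p x v
  | pair i j next => (next (signs K (x i) (x j) 0)).Same K p x v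
  | triple i j k next => (next (signs K (x i) (x j) (x k))).Same K p x v
  | read i next => (next (x i)).Same K p x v
  | poly D ψ next => (next (polyval x D ψ)).Same K p x v
  | sketch _ φ next => (next (φ x)).Same K p x v ∧ φ v = 0

theorem length_tri (K p : ℕ) (x : Fin n → ℤ) (P : Prog n q) :
    (P.tri K p x).length = P.triples K p x := by
  induction P with
  | answer b => rfl
  | digits i next ih => exact ih _ _
  | pair i j next ih => exact ih _
  | triple i j k next ih => exact congrArg (· + 1) (ih _)
  | read i next ih => exact ih _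
  | poly D ψ next ih => exact ih _
  | sketch G φ next ih => exact ih _

theorem length_rds (K p : ℕ) (x : Fin n → ℤ) (P : Prog n q) :
    (P.rds K p x).length = P.reads K p x := by
  induction P with
  | answer b => rfl
  | digits i next ih => exact ih _ _
  | pair i j next ih => exact ih _
  | triple i j k next ih => exact ih _
  | read i next ih => exact congrArg (· + 1) (ih _)
  | poly D ψ next ih => exact ih _
  | sketch G φ next ih => exact ih _

theorem vals_pos (K p N : ℕ) (x : Fin n → ℤ) (P : Prog n q) : 1 ≤ P.vals K p N x := by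
  induction P with
  | answer b => exact le_rfl
  | digits i next ih => exact ih _ _
  | pair i j next ih => exact ih _
  | triple i j k next ih => exact ih _
  | read i next ih => exact ih _
  | poly D ψ next ih => exact ih _
  | sketch G φ next ih => exact Nat.mul_pos (ih _) (values_pos N φ)

theorem bits_eq (K p N : ℕ) (x : Fin n → ℤ) (P : Prog n q) :
    P.bits K p N x = (((P.pars K p x).map fun c => (q - 1) * c.1).sum : ℕ) +
      Real.logb 2 (P.vals K p N x) := by
  induction P with
  | answer b => simp [bits, pars, vals]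
  | digits i next ih => exact ih _ _
  | pair i j next ih => exact ih _
  | triple i j k next ih => exact ih _
  | read i next ih => exact ih _
  | poly D ψ next ih =>
    simp only [bits, pars, vals, List.map_cons, List.sum_cons]
    rw [ih]
    rw [Nat.cast_add, Nat.cast_mul]
    ring
  | sketch G φ next ih =>
    simp only [bits, pars, vals]
    have h1 : ((next (φ x)).vals K p N x : ℝ) ≠ 0 := by
      exact_mod_cast (by have := (next (φ x)).vals_pos K p N x; omega)
    have h2 : ((values N φ : ℕ) : ℝ) ≠ 0 := by
      exact_mod_cast (by have := values_pos N φ; omega)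
    rw [ih]
    push_cast
    rw [Real.logb_mul h1 h2]
    ring

/-- A program gives the same answer for two inputs if the answers to the queries are the same. -/
theorem eval_congr (K p : ℕ) (x x' : Fin n → ℤ) (P : Prog n q)
    (hd : ∀ i, x' i % p = x i % p ∧ x' i / (4 * p) = x i / (4 * p))
    (hp : ∀ i j, signs K (x' i) (x' j) 0 = signs K (x i) (x j) 0)
    (ht : ∀ t ∈ P.tri K p x,
      signs K (x' t.1) (x' t.2.1) (x' t.2.2) = signs K (x t.1) (x t.2.1) (x t.2.2))
    (hr : ∀ i ∈ P.rds K p x, x' i = x i)
    (hψ : ∀ c ∈ P.pars K p x, polyval x' c.1 c.2 = polyval x c.1 c.2)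
    (hs : P.Same K p x (x' - x)) : P.eval K p x' = P.eval K p x := by
  induction P with
  | answer b => rfl
  | digits i next ih =>
    simp only [eval]
    rw [(hd i).1, (hd i).2]
    exact ih _ _ ht hr hψ hs
  | pair i j next ih =>
    simp only [eval]
    rw [hp i j]
    exact ih _ ht hr hψ hs
  | triple i j k next ih =>
    simp only [eval]
    rw [ht (i, j, k) (List.mem_cons_self ..)]
    exact ih _ (fun t h => ht t (List.mem_cons_of_mem _ h)) hr hψ hs
  | read i next ih =>
    simp only [eval]
    rw [hr i (List.mem_cons_self ..)]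
    exact ih _ ht (fun t h => hr t (List.mem_cons_of_mem _ h)) hψ hs
  | poly D ψ next ih =>
    simp only [eval]
    rw [hψ ⟨D, ψ⟩ (List.mem_cons_self ..)]
    exact ih _ ht hr (fun t h => hψ t (List.mem_cons_of_mem _ h)) hs
  | sketch G φ next ih =>
    simp only [eval]
    have h1 : φ x' = φ x := by
      have h2 : φ (x' - x) = 0 := hs.2
      rw [map_sub, sub_eq_zero] at h2
      exact h2
    rw [h1]
    exact ih _ ht hr hψ hs.1

/-- The pigeonhole principle for the sketches on the path of `x`. -/
theorem pigeon (K p N : ℕ) (x : Fin n → ℤ) (P : Prog n q) {α : Type} (v : α → Fin n → ℤ) :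
    ∀ F : Finset α, (∀ J ∈ F, ∀ i, |v J i| ≤ N) →
    ∃ F' ⊆ F, F.card ≤ F'.card * P.vals K p N x ∧
      ∀ J ∈ F', ∀ J' ∈ F', P.Same K p x (v J - v J') := by
  induction P with
  | answer b => exact fun F _ => ⟨F, Finset.Subset.refl _, by simp [vals], fun _ _ _ _ => trivial⟩
  | digits i next ih => exact ih _ _
  | pair i j next ih => exact ih _
  | triple i j k next ih => exact ih _
  | read i next ih => exact ih _
  | poly D ψ next ih => exact ih _
  | sketch G φ next ih =>
    intro F hv
    obtain ⟨F1, h1, h2, h3⟩ := pigeon_step N φ F v hv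
    obtain ⟨F2, h4, h5, h6⟩ := ih (φ x) F1 (fun J hJ => hv J (h1 hJ))
    refine ⟨F2, h4.trans h1, ?_, ?_⟩
    · show F.card ≤ F2.card * ((next (φ x)).vals K p N x * values N φ)
      calc F.card ≤ F1.card * values N φ := h2
        _ ≤ (F2.card * (next (φ x)).vals K p N x) * values N φ := Nat.mul_le_mul_right _ h5
        _ = _ := by ring
    · intro J hJ J' hJ'
      refine ⟨h6 J hJ J' hJ', ?_⟩
      rw [map_sub, h3 J (h4 hJ) J' (h4 hJ'), sub_self]

/-- without sketch bits there are no sketches -/
theorem same_of_vals (K p N : ℕ) (x : Fin n → ℤ) (P : Prog n q) (h : P.vals K p N x = 1)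
    (v v' : Fin n → ℤ) (hv : ∀ i, |v i| ≤ N) (hv' : ∀ i, |v' i| ≤ N) :
    P.Same K p x (v - v') := by
  obtain ⟨F', h1, h2, h3⟩ := P.pigeon K p N x (fun b : Bool => if b then v else v') Finset.univ (by
    intro J _ i
    cases J
    · simpa using hv' i
    · simpa using hv i)
  rw [h, mul_one] at h2
  have h4 : F' = Finset.univ := Finset.eq_of_subset_of_card_le h1 h2
  have h5 := h3 true (h4 ▸ Finset.mem_univ _) false (h4 ▸ Finset.mem_univ _)
  simpa using h5

theorem bits_zero (hq : 2 ≤ q) (K p N : ℕ) (x : Fin n → ℤ) (P : Prog n q)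
    (h : P.bits K p N x = 0) :
    (∀ c ∈ P.pars K p x, c.1 = 0) ∧ P.vals K p N x = 1 := by
  rw [bits_eq] at h
  have h1 : (1 : ℝ) ≤ P.vals K p N x := by exact_mod_cast P.vals_pos K p N x
  have h2 : 0 ≤ Real.logb 2 (P.vals K p N x) := Real.logb_nonneg (by norm_num) h1
  have h3 : (0 : ℝ) ≤ (((P.pars K p x).map fun c => (q - 1) * c.1).sum : ℕ) := Nat.cast_nonneg _
  have h4 : ((((P.pars K p x).map fun c => (q - 1) * c.1).sum : ℕ) : ℝ) = 0 := by linarith
  have h5 : Real.logb 2 (P.vals K p N x) = 0 := by linarith
  constructor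
  · intro c hc
    have h6 : ((P.pars K p x).map fun c => (q - 1) * c.1).sum = 0 := by exact_mod_cast h4
    have h7 := List.sum_eq_zero_iff.1 h6 ((q - 1) * c.1) (List.mem_map.2 ⟨c, hc, rfl⟩)
    rcases Nat.mul_eq_zero.1 h7 with h8 | h8
    · omega
    · exact h8
  · have h6 : ¬ (1 : ℝ) < P.vals K p N x := fun h7 =>
      (Real.logb_pos (by norm_num) h7).ne' h5
    have h7 : P.vals K p N x ≤ 1 := by
      have : (P.vals K p N x : ℝ) ≤ 1 := not_lt.1 h6
      exact_mod_cast this
    have h8 := P.vals_pos K p N x
    omega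

/-- constant queries -/
theorem polyval_zero {D : ℕ} (hD : D = 0) (x x' : Fin n → ℤ)
    (ψ : (Fin D → Fin n) → (Fin D → ℤ) → ZMod q) : polyval x' D ψ = polyval x D ψ := by
  subst hD
  unfold polyval
  refine Finset.sum_congr rfl fun s _ => ?_
  congr 1
  exact Subsingleton.elim _ _

end Prog

end Pool.Agent.J6H11.Sk3
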