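import Mathlib

/-!
# Families of sets and conditions of small degree modulo a prime
-/

set_option autoImplicit false

namespace Pool.Agent.J6H11.Sk3

open Finset Pointwise

section

variable (q : ℕ) [hq : Fact q.Prime] (I : Finset ℤ) (F : Finset (Finset ℤ))

/-- the functions of degree one on the family -/
noncomputable def gens : Set (F → ZMod q) :=
  insert 1 ((fun (t : ℤ) (J : F) => if t ∈ J.1 then (1 : ZMod q) else 0) '' (I : Set ℤ))

/-- the space of the functions of degree at most one -/
noncomputable def MM : Submodule (ZMod q) (F → ZMod q) := Submodule.span (ZMod q) (gens q I F)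

theorem one_mem_MM : (1 : F → ZMod q) ∈ MM q I F :=
  Submodule.subset_span (Set.mem_insert _ _)

theorem ind_mem_MM {t : ℤ} (ht : t ∈ I) :
    (fun J : F => if t ∈ J.1 then (1 : ZMod q) else 0) ∈ MM q I F :=
  Submodule.subset_span (Set.mem_insert_of_mem _ ⟨t, ht, rfl⟩)

theorem MM_mono {a b : ℕ} (hab : a ≤ b) : MM q I F ^ a ≤ MM q I F ^ b :=
  pow_le_pow_right' (Submodule.one_le.2 (one_mem_MM q I F)) hab

theorem one_mem_pow (a : ℕ) : (1 : F → ZMod q) ∈ MM q I F ^ a := by
  have h := MM_mono q I F (Nat.zero_le a)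
  rw [pow_zero] at h
  exact h (Submodule.one_le.1 le_rfl)

theorem pow_mem_pow {a : ℕ} {f : F → ZMod q} (hf : f ∈ MM q I F ^ a) (k : ℕ) :
    f ^ k ∈ MM q I F ^ (k * a) := by
  rw [mul_comm, pow_mul]
  exact Submodule.pow_mem_pow _ hf k

theorem prod_mem_pow : ∀ (D : ℕ) (f : Fin D → F → ZMod q), (∀ j, f j ∈ MM q I F) →
    ∏ j, f j ∈ MM q I F ^ D
  | 0, f, _ => by
    rw [Fin.prod_univ_zero]
    exact one_mem_pow q I F 0
  | D + 1, f, h => by
    rw [Fin.prod_univ_succ, pow_succ']
    exact Submodule.mul_mem_mul (h 0) (prod_mem_pow D _ fun j => h _)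

theorem finrank_le (k : ℕ) : Module.finrank (ZMod q) (MM q I F ^ k : Submodule (ZMod q) _) ≤
    (I.card + 1) ^ k := by
  classical
  obtain ⟨g, hg⟩ : ∃ g : Finset (F → ZMod q), (g : Set (F → ZMod q)) = gens q I F ∧
      g.card ≤ I.card + 1 := by
    refine ⟨insert 1 (I.image fun (t : ℤ) (J : F) => if t ∈ J.1 then (1 : ZMod q) else 0), ?_, ?_⟩
    · rw [Finset.coe_insert, Finset.coe_image]
      rfl
    · exact (Finset.card_insert_le _ _).trans (Nat.add_le_add_right Finset.card_image_le 1)
  unfold MM
  rw [← hg.1, Submodule.span_pow, ← Finset.coe_pow]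
  calc _ ≤ (g ^ k).card := finrank_span_finset_le_card (R := ZMod q) (g ^ k)
    _ ≤ g.card ^ k := Finset.card_pow_le
    _ ≤ (I.card + 1) ^ k := Nat.pow_le_pow_left hg.2 k

/-- A family on which the identity matrix has small degree is small. -/
theorem family_le (k : ℕ) (A : F → F → ZMod q) (hA : ∀ J, A J ∈ MM q I F ^ k)
    (h1 : ∀ J, A J J = 1) (h0 : ∀ J J', J ≠ J' → A J J' = 0) : F.card ≤ (I.card + 1) ^ k := by
  classical
  have hli : LinearIndependent (ZMod q) (fun J : F => (⟨A J, hA J⟩ :
      (MM q I F ^ k : Submodule (ZMod q) _))) := by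
    rw [Fintype.linearIndependent_iff]
    intro c hc J
    have h2 : ∑ J', c J' • A J' = 0 := by
      have := congrArg (Submodule.subtype _) hc
      simpa using this
    have h3 := congrFun h2 J
    rw [Finset.sum_apply, Finset.sum_eq_single J] at h3
    · simpa [h1] using h3
    · intro J' _ hne
      simp [h0 J' J hne]
    · intro h; exact absurd (Finset.mem_univ J) h
  have h4 := hli.fintype_card_le_finrank
  rw [Fintype.card_coe] at h4
  exact h4.trans (finrank_le q I F k)

/-- the total degree -/
def deg {α : Type} (D : α → ℕ) (L : List α) : ℕ := (L.map fun c => (q - 1) * D c).sum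

/-- A family of sets in which no two different sets satisfy all conditions together
has at most `(|I| + 1) ^ k` members, where `k` is the degree of the conditions. -/
theorem family_bound {α : Type} (D : α → ℕ) (Q : α → F → F → ZMod q) (L : List α)
    (hdeg : ∀ c ∈ L, ∀ J, Q c J ∈ MM q I F ^ D c)
    (hself : ∀ c ∈ L, ∀ J, Q c J J = 0)
    (hne : ∀ J J' : F, J ≠ J' → ∃ c ∈ L, Q c J J' ≠ 0) :
    F.card ≤ (I.card + 1) ^ deg q D L := by
  have hq1 : q - 1 ≠ 0 := by have := hq.out.two_le; omega
  refine family_le q I F _ (fun J => (L.map fun c => 1 - Q c J ^ (q - 1)).prod) ?_ ?_ ?_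
  · intro J
    have key : ∀ L' : List α, (∀ c ∈ L', Q c J ∈ MM q I F ^ D c) →
        (L'.map fun c => 1 - Q c J ^ (q - 1)).prod ∈ MM q I F ^ deg q D L' := by
      intro L'
      induction L' with
      | nil =>
        intro _
        simp only [List.map_nil, List.prod_nil]
        exact one_mem_pow q I F _
      | cons c L' ih =>
        intro h
        have e : deg q D (c :: L') = (q - 1) * D c + deg q D L' := by simp [deg]
        rw [List.map_cons, List.prod_cons, e, pow_add]
        refine Submodule.mul_mem_mul ?_ (ih fun c' hc' => h c' (List.mem_cons_of_mem _ hc'))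
        refine Submodule.sub_mem _ (one_mem_pow q I F _) ?_
        exact pow_mem_pow q I F (h c (List.mem_cons_self ..)) (q - 1)
    exact key L fun c hc => hdeg c hc J
  · intro J
    have key : ∀ L' : List α, (∀ c ∈ L', Q c J J = 0) →
        (L'.map fun c => 1 - Q c J ^ (q - 1)).prod J = 1 := by
      intro L'
      induction L' with
      | nil => intro _; rfl
      | cons c L' ih =>
        intro h
        rw [List.map_cons, List.prod_cons, Pi.mul_apply,
          ih fun c' hc' => h c' (List.mem_cons_of_mem _ hc'), mul_one, Pi.sub_apply, Pi.pow_apply,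
          h c (List.mem_cons_self ..), zero_pow hq1, Pi.one_apply, sub_zero]
    exact key L fun c hc => hself c hc J
  · intro J J' hJ
    obtain ⟨c, hc, hcQ⟩ := hne J J' hJ
    have key : ∀ L' : List α, c ∈ L' → (L'.map fun c => 1 - Q c J ^ (q - 1)).prod J' = 0 := by
      intro L'
      induction L' with
      | nil => intro h; exact absurd h (List.not_mem_nil)
      | cons c' L' ih =>
        intro h
        rw [List.map_cons, List.prod_cons, Pi.mul_apply]
        rcases List.mem_cons.1 h with h1 | h1
        · rw [← h1, Pi.sub_apply, Pi.pow_apply, Pi.one_apply, ZMod.pow_card_sub_one_eq_one hcQ,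
            sub_self, zero_mul]
        · rw [ih h1, mul_zero]
    exact key L hc

end

/-- one step of the pigeonhole principle for the cardinality -/
theorem card_class (I : Finset ℤ) (F : Finset (Finset ℤ)) (hF : ∀ J ∈ F, J ⊆ I) :
    ∃ F' ⊆ F, F.card ≤ F'.card * (I.card + 1) ∧ ∀ J ∈ F', ∀ J' ∈ F', J.card = J'.card := by
  by_contra hcon
  push Not at hcon
  have h1 : ∀ g ∈ range (I.card + 1),
      (F.filter fun J => J.card = g).card * (I.card + 1) < F.card := by
    intro g _
    by_contra h2
    push Not at h2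
    obtain ⟨J, hJ, J', hJ', h3⟩ := hcon _ (Finset.filter_subset _ _) h2
    exact h3 ((Finset.mem_filter.1 hJ).2.trans (Finset.mem_filter.1 hJ').2.symm)
  have h2 : F.card = ∑ g ∈ range (I.card + 1), (F.filter fun J => J.card = g).card :=
    Finset.card_eq_sum_card_fiberwise fun J hJ => by
      simp only [Finset.coe_range, Set.mem_Iio]
      exact Nat.lt_succ_of_le (Finset.card_le_card (hF J hJ))
  have h3 : (∑ g ∈ range (I.card + 1), (F.filter fun J => J.card = g).card) * (I.card + 1) <
      (range (I.card + 1)).card * F.card := by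
    rw [Finset.sum_mul, ← smul_eq_mul ((range (I.card + 1)).card), ← Finset.sum_const]
    exact Finset.sum_lt_sum_of_nonempty ⟨0, by simp⟩ h1
  rw [← h2, Finset.card_range, mul_comm] at h3
  omega

/-- The combination: two sets with the same number of elements which satisfy all conditions. -/
theorem exists_two (q : ℕ) [Fact q.Prime] (I : Finset ℤ) (F : Finset (Finset ℤ))
    (hF : ∀ J ∈ F, J ⊆ I) {α : Type} (D : α → ℕ) (Q : α → Finset ℤ → Finset ℤ → ZMod q)
    (L : List α)
    (hdeg : ∀ F' ⊆ F, ∀ c ∈ L, ∀ J ∈ F', (fun J' : F' => Q c J J'.1) ∈ MM q I F' ^ D c)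
    (hself : ∀ c ∈ L, ∀ J ∈ F, Q c J J = 0)
    (hbig : (I.card + 1) ^ (deg q D L + 1) < F.card) :
    ∃ J ∈ F, ∃ J' ∈ F, (J \ J').Nonempty ∧ ∀ c ∈ L, Q c J J' = 0 := by
  obtain ⟨F', h1, h2, h3⟩ := card_class I F hF
  by_contra hcon
  push Not at hcon
  have h4 := family_bound q I F' D (fun c J J' => Q c J.1 J'.1) L
    (fun c hc J => hdeg F' h1 c hc J.1 J.2) (fun c hc J => hself c hc J.1 (h1 J.2)) (by
      intro J J' hne
      refine hcon J.1 (h1 J.2) J'.1 (h1 J'.2) ?_
      rw [Finset.sdiff_nonempty]
      intro hsub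
      exact hne (Subtype.ext (Finset.eq_of_subset_of_card_le hsub (h3 J.1 J.2 J'.1 J'.2).ge)))
  have h5 : F.card ≤ (I.card + 1) ^ deg q D L * (I.card + 1) := h2.trans (Nat.mul_le_mul_right _ h4)
  rw [← pow_succ] at h5
  omega

end Pool.Agent.J6H11.Sk3
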