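import Pool.Agent.J6H11.Sk3.Sign
import Pool.Agent.J6H11.Sk3.Path
import Pool.Agent.J6H11.Sk3.Poly

/-!
# Programs on the instance
-/

set_option autoImplicit false

namespace Pool.Agent.J6H11.Sk3

open Finset

structure Setup (n N K m d p : ℕ) (S : Finset ℤ) (τ : ℤ) : Prop where
  hK : 2 ≤ K
  hp : 1 ≤ p
  hS : Free K S
  hm1 : 1 ≤ m
  hm : ∀ x ∈ S, 0 ≤ x ∧ x < m
  hτ : |τ| ≤ 2 * m
  hd : d ≤ m
  hn : 3 * S.card + d = n
  hN : p * (2000 * (K ^ 4 * m)) ≤ N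

/-- the items of a possible solution -/
def ts (t : ℤ × ℤ) : Finset (Fin 4 × ℤ) := {(0, t.1), (1, t.2), (2, t.1 + t.2)}

theorem mem_ts {t : ℤ × ℤ} {v : Fin 4 × ℤ} :
    v ∈ ts t ↔ (v.1 = 0 ∧ v.2 = t.1) ∨ (v.1 = 1 ∧ v.2 = t.2) ∨ (v.1 = 2 ∧ v.2 = t.1 + t.2) := by
  obtain ⟨c, k⟩ := v
  simp [ts]

theorem ts_inj {t t' : ℤ × ℤ} (h : ts t = ts t') : t = t' := by
  have h1 : ((0, t.1) : Fin 4 × ℤ) ∈ ts t' := by rw [← h]; simp [ts]
  have h2 : ((1, t.2) : Fin 4 × ℤ) ∈ ts t' := by rw [← h]; simp [ts]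
  rw [mem_ts] at h1 h2
  simp at h1 h2
  exact Prod.ext h1 h2

/-- each item belongs to at most one of the triples of a line -/
theorem ts_unique {s i i' : ℤ} {v : Fin 4 × ℤ} (h : v ∈ ts (i, i - s)) (h' : v ∈ ts (i', i' - s)) :
    i = i' := by
  rw [mem_ts] at h h'
  rcases h with ⟨h1, h2⟩ | ⟨h1, h2⟩ | ⟨h1, h2⟩ <;> rcases h' with ⟨h3, h4⟩ | ⟨h3, h4⟩ | ⟨h3, h4⟩ <;>
    first
      | (rw [h1] at h3; exact absurd h3 (by decide))
      | (simp only at h2 h4; omega)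

theorem dl_ne {ε : ℤ → ℤ} {s : ℤ} {v : Fin 4 × ℤ} (h : dl ε s v ≠ 0) :
    ∃ i, ε i ≠ 0 ∧ v ∈ ts (i, i - s) := by
  unfold dl at h
  split_ifs at h with h1 h2 h3 h4
  · exact ⟨v.2, by simpa using h, mem_ts.2 (Or.inl ⟨h1, rfl⟩)⟩
  · exact ⟨v.2 + s, by simpa using h, mem_ts.2 (Or.inr (Or.inl ⟨h2, by simp⟩))⟩
  · refine ⟨(v.2 + s) / 2, h, mem_ts.2 (Or.inr (Or.inr ⟨h3, ?_⟩))⟩
    simp only
    omega
  · exact absurd rfl h
  · exact absurd rfl h

theorem dl_congr {ε ε' : ℤ → ℤ} {s i : ℤ} {v : Fin 4 × ℤ} (hv : v ∈ ts (i, i - s))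
    (h : ε i = ε' i) : dl ε s v = dl ε' s v := by
  rw [mem_ts] at hv
  obtain ⟨c, k⟩ := v
  rcases hv with ⟨h1, h2⟩ | ⟨h1, h2⟩ | ⟨h1, h2⟩
  · simp only at h1 h2
    subst h1 h2
    simp [dl, h]
  · simp only at h1 h2
    subst h1 h2
    simp [dl, h]
  · simp only at h1 h2
    subst h1 h2
    have h3 : i + (i - s) + s = 2 * i := by ring
    simp [dl, h3, h]

section

variable {n N K m d p q : ℕ} {S : Finset ℤ} {τ : ℤ}

/-- the changed instance -/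
def XX (K m p : ℕ) (e : Fin n → Fin 4 × ℤ) (ε : ℤ → ℤ) (s : ℤ) : Fin n → ℤ :=
  fun i => p * ys K m ε s (e i)

/-- the instance -/
def X0 (K m p : ℕ) (e : Fin n → Fin 4 × ℤ) : Fin n → ℤ := fun i => p * yy K m (e i)

theorem XX_zero (e : Fin n → Fin 4 × ℤ) (s : ℤ) : XX K m p e (fun _ => 0) s = X0 K m p e := by
  funext i
  simp [XX, X0, ys_zero]

theorem XX_valid (H : Setup n N K m d p S τ) {e : Fin n → Fin 4 × ℤ} (he : ∀ i, e i ∈ WW m d S τ)
    (hei : Function.Injective e) {ε : ℤ → ℤ} (hε : ∀ i, |ε i| ≤ 1) (s : ℤ) :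
    Valid N (XX K m p e ε s) := by
  have hp0 : (0 : ℤ) < p := by exact_mod_cast H.hp
  constructor
  · intro i j h
    have h1 : ys K m ε s (e i) = ys K m ε s (e j) := mul_left_cancel₀ hp0.ne' h
    exact hei (ys_inj H.hK H.hm H.hτ H.hd hε s (he i) (he j) h1)
  · intro i
    have h1 := ys_bound H.hK H.hm1 H.hm H.hτ H.hd hε s (he i)
    unfold XX
    rw [abs_mul, abs_of_pos hp0]
    calc (p : ℤ) * |ys K m ε s (e i)| ≤ p * (2000 * (K ^ 4 * m)) :=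
          mul_le_mul_of_nonneg_left h1 hp0.le
      _ ≤ N := by exact_mod_cast H.hN

theorem X0_valid (H : Setup n N K m d p S τ) {e : Fin n → Fin 4 × ℤ} (he : ∀ i, e i ∈ WW m d S τ)
    (hei : Function.Injective e) : Valid N (X0 K m p e) := by
  rw [← XX_zero e 0]
  exact XX_valid H he hei (fun _ => by simp) 0

theorem X0_not (H : Setup n N K m d p S τ) {e : Fin n → Fin 4 × ℤ} (he : ∀ i, e i ∈ WW m d S τ) :
    ¬ Solvable (X0 K m p e) := by
  rintro ⟨i, j, k, -, -, -, h⟩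
  have hp0 : (0 : ℤ) < p := by exact_mod_cast H.hp
  refine no_sum H.hK H.hm H.hτ H.hd (he i) (he j) (he k) (mul_left_cancel₀ hp0.ne' ?_)
  unfold X0 at h
  linear_combination h

theorem XX_solvable {e : Fin n → Fin 4 × ℤ}
    (hes : ∀ v ∈ WW m d S τ, ∃ i, e i = v) {ε : ℤ → ℤ} {s i : ℤ} (hi : ε i = 1) (h1 : i ∈ S)
    (h2 : i - s ∈ S) (h3 : i + (i - s) - τ ∈ S) : Solvable (XX K m p e ε s) := by
  obtain ⟨a, ha⟩ := hes (0, i) (mem_WW.2 (Or.inl ⟨rfl, h1⟩))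
  obtain ⟨b, hb⟩ := hes (1, i - s) (mem_WW.2 (Or.inr (Or.inl ⟨rfl, h2⟩)))
  obtain ⟨c, hc⟩ := hes (2, i + (i - s)) (mem_WW.2 (Or.inr (Or.inr (Or.inl ⟨rfl, h3⟩))))
  refine ⟨a, b, c, ?_, ?_, ?_, ?_⟩
  · rintro rfl
    rw [ha] at hb
    simp at hb
  · rintro rfl
    rw [ha] at hc
    simp at hc
  · rintro rfl
    rw [hb] at hc
    simp at hc
  · have := ys_sum (K := K) (m := m) (s := s) hi
    unfold XX
    rw [ha, hb, hc]
    linear_combination (p : ℤ) * this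

theorem XX_digits (H : Setup n N K m d p S τ) (e : Fin n → Fin 4 × ℤ) {ε : ℤ → ℤ}
    (hε : ∀ i, |ε i| ≤ 1) (s : ℤ) (i : Fin n) :
    XX K m p e ε s i % p = X0 K m p e i % p ∧
      XX K m p e ε s i / (4 * p) = X0 K m p e i / (4 * p) := by
  have hp0 : (0 : ℤ) < p := by exact_mod_cast H.hp
  unfold XX X0
  constructor
  · rw [Int.mul_emod_right, Int.mul_emod_right]
  · rw [mul_comm (4 : ℤ) (p : ℤ), Int.mul_ediv_mul_of_pos _ _ hp0, Int.mul_ediv_mul_of_pos _ _ hp0,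
      ys_div K m hε s]

theorem XX_signs (H : Setup n N K m d p S τ) {e : Fin n → Fin 4 × ℤ} (he : ∀ i, e i ∈ WW m d S τ)
    {ε : ℤ → ℤ} (hε : ∀ i, |ε i| ≤ 1) (hεS : ∀ i, ε i = 1 → i ∈ S) (s : ℤ) {K0 : ℕ} (hK0 : K0 ≤ K)
    (a b c : Fin n) (hne : ∀ i, ε i = 1 → ({e a, e b, e c} : Finset (Fin 4 × ℤ)) ≠ ts (i, i - s)) :
    signs K0 (XX K m p e ε s a) (XX K m p e ε s b) (XX K m p e ε s c) =
      signs K0 (X0 K m p e a) (X0 K m p e b) (X0 K m p e c) := by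
  have hp0 : (0 : ℤ) < p := by exact_mod_cast H.hp
  have hKK : (K0 : ℤ) ≤ K := by exact_mod_cast hK0
  funext α β γ
  unfold signs
  split_ifs with h
  · have h1 := sign_eq H.hK H.hS H.hm H.hτ H.hd hε hεS s (he a) (he b) (he c)
      (h.1.trans hKK) (h.2.1.trans hKK) (h.2.2.trans hKK) hne
    have e1 : α * XX K m p e ε s a + β * XX K m p e ε s b + γ * XX K m p e ε s c =
        p * (α * ys K m ε s (e a) + β * ys K m ε s (e b) + γ * ys K m ε s (e c)) := by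
      unfold XX; ring
    have e2 : α * X0 K m p e a + β * X0 K m p e b + γ * X0 K m p e c =
        p * (α * yy K m (e a) + β * yy K m (e b) + γ * yy K m (e c)) := by
      unfold X0; ring
    rw [e1, e2, sign_mul, sign_mul, h1]
  · rfl

theorem XX_pair (H : Setup n N K m d p S τ) {e : Fin n → Fin 4 × ℤ} (he : ∀ i, e i ∈ WW m d S τ)
    {ε : ℤ → ℤ} (hε : ∀ i, |ε i| ≤ 1) (hεS : ∀ i, ε i = 1 → i ∈ S) (s : ℤ) {K0 : ℕ} (hK0 : K0 ≤ K)
    (a b : Fin n) :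
    signs K0 (XX K m p e ε s a) (XX K m p e ε s b) 0 =
      signs K0 (X0 K m p e a) (X0 K m p e b) 0 := by
  have hp0 : (0 : ℤ) < p := by exact_mod_cast H.hp
  have hKK : (K0 : ℤ) ≤ K := by exact_mod_cast hK0
  funext α β γ
  unfold signs
  split_ifs with h
  · have h1 := sign_eq (γ := 0) H.hK H.hS H.hm H.hτ H.hd hε hεS s (he a) (he b) (he b)
      (h.1.trans hKK) (h.2.1.trans hKK) (by simp) (by
        intro i _ hcon
        have h5 : ({(0, i), (1, i - s), (2, i + (i - s))} : Finset (Fin 4 × ℤ)).card = 3 := by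
          rw [Finset.card_eq_three]
          exact ⟨(0, i), (1, i - s), (2, i + (i - s)), by simp, by simp, by simp, rfl⟩
        rw [← hcon] at h5
        have h6 : ({e a, e b, e b} : Finset (Fin 4 × ℤ)).card ≤ 2 := by
          have : ({e a, e b, e b} : Finset (Fin 4 × ℤ)) = {e a, e b} := by
            ext v; simp
          rw [this]
          exact Finset.card_le_two
        omega)
    have e1 : α * XX K m p e ε s a + β * XX K m p e ε s b + γ * 0 =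
        p * (α * ys K m ε s (e a) + β * ys K m ε s (e b) + 0 * ys K m ε s (e b)) := by
      unfold XX; ring
    have e2 : α * X0 K m p e a + β * X0 K m p e b + γ * 0 =
        p * (α * yy K m (e a) + β * yy K m (e b) + 0 * yy K m (e b)) := by
      unfold X0; ring
    rw [e1, e2, sign_mul, sign_mul, h1]
  · rfl

/-- The answer does not change if the changed triples are not touched. -/
theorem agree (H : Setup n N K m d p S τ) {e : Fin n → Fin 4 × ℤ} (he : ∀ i, e i ∈ WW m d S τ)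
    {ε : ℤ → ℤ} (hε : ∀ i, |ε i| ≤ 1) (hεS : ∀ i, ε i = 1 → i ∈ S) (s : ℤ) {K0 : ℕ} (hK0 : K0 ≤ K)
    (P : Prog n q)
    (ht : ∀ q ∈ P.tri K0 p (X0 K m p e), ∀ i, ε i ≠ 0 →
      ({e q.1, e q.2.1, e q.2.2} : Finset (Fin 4 × ℤ)) ≠ ts (i, i - s))
    (hr : ∀ r ∈ P.rds K0 p (X0 K m p e), ∀ i, ε i ≠ 0 → e r ∉ ts (i, i - s))
    (hψ : ∀ c ∈ P.pars K0 p (X0 K m p e),
      polyval (XX K m p e ε s) c.1 c.2 = polyval (X0 K m p e) c.1 c.2)
    (hs : P.Same K0 p (X0 K m p e) (XX K m p e ε s - X0 K m p e)) :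
    P.eval K0 p (XX K m p e ε s) = P.eval K0 p (X0 K m p e) := by
  refine P.eval_congr K0 p _ _ (fun i => XX_digits H e hε s i)
    (fun i j => XX_pair H he hε hεS s hK0 i j) (fun q hq => ?_) (fun r hrr => ?_) hψ hs
  · exact XX_signs H he hε hεS s hK0 _ _ _ (fun i hi => ht q hq i (by rw [hi]; exact one_ne_zero))
  · have h1 : dl ε s (e r) = 0 := by
      by_contra h2
      obtain ⟨i, h3, h4⟩ := dl_ne h2
      exact hr r hrr i h3 h4
    unfold XX X0 ys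
    rw [h1, add_zero]

end

end Pool.Agent.J6H11.Sk3
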