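import Pool.Agent.J6H11.Sk3.Core

/-!
# Counting touched triples, and the lower bound for one program
-/

set_option autoImplicit false

namespace Pool.Agent.J6H11.Sk3

open Finset

theorem card_filter_list {α β : Type} [DecidableEq α] (T : Finset α) (R : β → α → Prop)
    [∀ q, DecidablePred (R q)] (b : ℕ) (hb : ∀ q, (T.filter (R q)).card ≤ b) (L : List β)
    [DecidablePred fun t => ∃ q ∈ L, R q t] :
    (T.filter fun t => ∃ q ∈ L, R q t).card ≤ L.length * b := by
  classical
  have key : ∀ L : List β, (T.filter fun t => ∃ q ∈ L, R q t).card ≤ L.length * b := by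
    intro L
    induction L with
    | nil => simp
    | cons q L ih =>
      have h1 : (T.filter fun t => ∃ q' ∈ q :: L, R q' t) ⊆
          T.filter (R q) ∪ T.filter (fun t => ∃ q' ∈ L, R q' t) := by
        intro t ht
        rw [Finset.mem_filter] at ht
        rw [Finset.mem_union, Finset.mem_filter, Finset.mem_filter]
        obtain ⟨h2, q', h3, h4⟩ := ht
        rcases List.mem_cons.1 h3 with rfl | h5
        · exact Or.inl ⟨h2, h4⟩
        · exact Or.inr ⟨h2, q', h5, h4⟩
      calc _ ≤ (T.filter (R q) ∪ T.filter (fun t => ∃ q' ∈ L, R q' t)).card :=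
            Finset.card_le_card h1
        _ ≤ (T.filter (R q)).card + (T.filter (fun t => ∃ q' ∈ L, R q' t)).card :=
            Finset.card_union_le _ _
        _ ≤ b + L.length * b := add_le_add (hb q) ih
        _ = (q :: L).length * b := by rw [List.length_cons]; ring
  convert key L

/-- a set of three items -/
def s3 (a b c : Fin 4 × ℤ) : Finset (Fin 4 × ℤ) := {a, b, c}

/-- the possible solutions -/
def TT (S : Finset ℤ) (τ : ℤ) : Finset (ℤ × ℤ) := (S ×ˢ S).filter fun t => t.1 + t.2 - τ ∈ S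

theorem mem_TT {S : Finset ℤ} {τ : ℤ} {t : ℤ × ℤ} :
    t ∈ TT S τ ↔ t.1 ∈ S ∧ t.2 ∈ S ∧ t.1 + t.2 - τ ∈ S := by
  unfold TT
  rw [Finset.mem_filter, Finset.mem_product, and_assoc]

theorem card_ts (S : Finset ℤ) (τ : ℤ) (v : Fin 4 × ℤ) :
    ((TT S τ).filter fun t => v ∈ ts t).card ≤ S.card := by
  by_cases hv : v.1 = 0
  · refine Finset.card_le_card_of_injOn (fun t => t.2) (fun t ht => ?_) ?_
    · exact (mem_TT.1 (Finset.mem_filter.1 (Finset.mem_coe.1 ht)).1).2.1
    · intro t ht t' ht' h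
      have h1 := (Finset.mem_filter.1 (Finset.mem_coe.1 ht)).2
      have h2 := (Finset.mem_filter.1 (Finset.mem_coe.1 ht')).2
      rw [mem_ts] at h1 h2
      simp only [hv] at h1 h2
      simp at h1 h2
      exact Prod.ext (h1.symm.trans h2) h
  · refine Finset.card_le_card_of_injOn (fun t => t.1) (fun t ht => ?_) ?_
    · exact (mem_TT.1 (Finset.mem_filter.1 (Finset.mem_coe.1 ht)).1).1
    · intro t ht t' ht' h
      have h1 := (Finset.mem_filter.1 (Finset.mem_coe.1 ht)).2
      have h2 := (Finset.mem_filter.1 (Finset.mem_coe.1 ht')).2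
      rw [mem_ts] at h1 h2
      simp only at h
      refine Prod.ext h ?_
      rcases h1 with ⟨a1, a2⟩ | ⟨a1, a2⟩ | ⟨a1, a2⟩ <;> rcases h2 with ⟨b1, b2⟩ | ⟨b1, b2⟩ | ⟨b1, b2⟩ <;>
        first
          | exact absurd a1 hv
          | exact absurd b1 hv
          | (rw [a1] at b1; exact absurd b1 (by decide))
          | omega

section

variable {n N K m d p q : ℕ} {S : Finset ℤ} {τ : ℤ}

/-- the triple is queried, or one of its members is read -/
def Tch (K m p K0 : ℕ) (e : Fin n → Fin 4 × ℤ) (P : Prog n q) (t : ℤ × ℤ) : Prop :=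
  (∃ q ∈ P.tri K0 p (X0 K m p e), s3 (e q.1) (e q.2.1) (e q.2.2) = ts t) ∨
    ∃ r ∈ P.rds K0 p (X0 K m p e), e r ∈ ts t

open Classical in
theorem card_tch (H : Setup n N K m d p S τ) (e : Fin n → Fin 4 × ℤ) (K0 : ℕ) (P : Prog n q) :
    ((TT S τ).filter (Tch K m p K0 e P)).card ≤
      P.triples K0 p (X0 K m p e) + n * P.reads K0 p (X0 K m p e) := by
  have h1 := card_filter_list (TT S τ)
    (fun (q : Fin n × Fin n × Fin n) t =>
      s3 (e q.1) (e q.2.1) (e q.2.2) = ts t) 1 (by
      intro q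
      rw [Finset.card_le_one]
      intro t ht t' ht'
      exact ts_inj ((Finset.mem_filter.1 ht).2.symm.trans (Finset.mem_filter.1 ht').2))
    (P.tri K0 p (X0 K m p e))
  have h2 := card_filter_list (TT S τ) (fun (r : Fin n) t => e r ∈ ts t) S.card
    (fun r => card_ts S τ (e r)) (P.rds K0 p (X0 K m p e))
  rw [P.length_tri] at h1
  rw [P.length_rds] at h2
  have h3 : (TT S τ).filter (Tch K m p K0 e P) =
      ((TT S τ).filter fun t => ∃ q ∈ P.tri K0 p (X0 K m p e),
        s3 (e q.1) (e q.2.1) (e q.2.2) = ts t) ∪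
      (TT S τ).filter fun t => ∃ r ∈ P.rds K0 p (X0 K m p e), e r ∈ ts t := by
    ext t
    simp only [Finset.mem_union, Finset.mem_filter, Tch]
    exact and_or_left
  rw [h3]
  have h4 : S.card ≤ n := by have := H.hn; omega
  calc _ ≤ _ := Finset.card_union_le _ _
    _ ≤ P.triples K0 p (X0 K m p e) * 1 + P.reads K0 p (X0 K m p e) * S.card := add_le_add h1 h2
    _ ≤ _ := by
      rw [mul_one, mul_comm n]
      exact Nat.add_le_add_left (Nat.mul_le_mul_left _ h4) _

/-- Without sketches: an untouched triple can be changed. -/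
theorem untouched (H : Setup n N K m d p S τ) {e : Fin n → Fin 4 × ℤ}
    (he : ∀ i, e i ∈ WW m d S τ) (hei : Function.Injective e) {K0 : ℕ} (hK0 : K0 ≤ K)
    (hq : 2 ≤ q) (P : Prog n q) (hb : P.bits K0 p N (X0 K m p e) = 0) {t : ℤ × ℤ} (ht : t ∈ TT S τ)
    (hu : ¬ Tch K m p K0 e P t) :
    P.eval K0 p (XX K m p e (fun i => if i = t.1 then 1 else 0) (t.1 - t.2)) =
      P.eval K0 p (X0 K m p e) := by
  obtain ⟨h1, h2⟩ := P.bits_zero hq K0 p N _ hb
  have hε : ∀ i, |(fun i => if i = t.1 then (1 : ℤ) else 0) i| ≤ 1 := by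
    intro i
    simp only
    split_ifs <;> simp
  have hts : ∀ i, (fun i => if i = t.1 then (1 : ℤ) else 0) i ≠ 0 →
      ts (i, i - (t.1 - t.2)) = ts t := by
    intro i hi
    have h3 : i = t.1 := by
      by_contra h4
      simp [h4] at hi
    subst h3
    congr 1
    exact Prod.ext rfl (by simp)
  refine agree H he hε (fun i hi => ?_) (t.1 - t.2) hK0 P ?_ ?_ ?_ ?_
  · have h3 : i = t.1 := by
      by_contra h4
      simp [h4] at hi
    rw [h3]
    exact (mem_TT.1 ht).1
  · intro q hq i hi h3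
    rw [hts i hi] at h3
    exact hu (Or.inl ⟨q, hq, h3⟩)
  · intro r hr i hi h3
    rw [hts i hi] at h3
    exact hu (Or.inr ⟨r, hr, h3⟩)
  · intro c hc
    exact Prog.polyval_zero (h1 c hc) _ _ _
  · exact P.same_of_vals K0 p N _ h2 _ _ (XX_valid H he hei hε _).2 (X0_valid H he hei).2

end

end Pool.Agent.J6H11.Sk3
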