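import Mathlib

/-!
# Programs with comparisons and linear sketches for 3SUM: definitions
-/

set_option autoImplicit false

namespace Pool.Agent.J6H11.Sk3

/-- The numbers are distinct and of absolute value at most `N`. -/
def Valid {n : ℕ} (N : ℕ) (x : Fin n → ℤ) : Prop :=
  Function.Injective x ∧ ∀ i, |x i| ≤ N

/-- One of the numbers is the sum of two others. -/
def Solvable {n : ℕ} (x : Fin n → ℤ) : Prop :=
  ∃ i j k, i ≠ j ∧ i ≠ k ∧ j ≠ k ∧ x i + x j = x k

/-- The signs of all numbers `α a + β b + γ c` with coefficients of absolute value at most `K`. -/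
noncomputable def signs (K : ℕ) (a b c : ℤ) : ℤ → ℤ → ℤ → SignType := fun α β γ =>
  if |α| ≤ K ∧ |β| ≤ K ∧ |γ| ≤ K then SignType.sign (α * a + β * b + γ * c) else 0

/-- Adaptive programs for the input `x 0, …, x (n - 1)` (decision trees of arbitrary shape and size).
After each query `next` maps the answer to the rest of the program; the answers are

* `digits i`: `x i % p` and `x i / (4 * p)`, that is, all digits of `x i` apart from a factor `4`,
* `pair i j`: the signs of all `α x i + β x j`, `|α|, |β| ≤ K`,
* `triple i j k`: the signs of all `α x i + β x j + γ x k`, `|α|, |β|, |γ| ≤ K`,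
* `read i`: the number `x i`,
* `poly D ψ`: the sum modulo `q` of arbitrary functions of `D` numbers, that is, of
  `ψ s (x (s 0), …, x (s (D - 1)))` over all `D`-tuples `s` of indices,
* `sketch G φ`: `φ x`, where `φ` is an arbitrary homomorphism to an abelian group `G`, for instance
  a linear form in all of the numbers modulo any number. -/
inductive Prog (n q : ℕ) : Type 1
  | answer (b : Bool) : Prog n q
  | digits (i : Fin n) (next : ℤ → ℤ → Prog n q) : Prog n q
  | pair (i j : Fin n) (next : (ℤ → ℤ → ℤ → SignType) → Prog n q) : Prog n q
  | triple (i j k : Fin n) (next : (ℤ → ℤ → ℤ → SignType) → Prog n q) : Prog n q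
  | read (i : Fin n) (next : ℤ → Prog n q) : Prog n q
  | poly (D : ℕ) (ψ : (Fin D → Fin n) → (Fin D → ℤ) → ZMod q) (next : ZMod q → Prog n q) : Prog n q
  | sketch (G : Type) [AddCommGroup G] (φ : (Fin n → ℤ) →+ G) (next : G → Prog n q) : Prog n q

/-- The answer to a query `poly`. -/
def polyval {n q : ℕ} (x : Fin n → ℤ) (D : ℕ) (ψ : (Fin D → Fin n) → (Fin D → ℤ) → ZMod q) :
    ZMod q :=
  ∑ s : Fin D → Fin n, ψ s fun j => x (s j)

/-- The number of values of `φ` for vectors of numbers between `- N` and `N`. -/
noncomputable def values {n : ℕ} {G : Type} [AddCommGroup G] (N : ℕ) (φ : (Fin n → ℤ) →+ G) : ℕ :=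
  Set.ncard (φ '' {x | ∀ i, |x i| ≤ N})

namespace Prog

variable {n q : ℕ}

/-- The answer of the program for the input `x`. -/
noncomputable def eval (K p : ℕ) (x : Fin n → ℤ) : Prog n q → Bool
  | answer b => b
  | digits i next => (next (x i % p) (x i / (4 * p))).eval K p x
  | pair i j next => (next (signs K (x i) (x j) 0)).eval K p x
  | triple i j k next => (next (signs K (x i) (x j) (x k))).eval K p x
  | read i next => (next (x i)).eval K p x
  | poly D ψ next => (next (polyval x D ψ)).eval K p x
  | sketch _ φ next => (next (φ x)).eval K p x

/-- The number of queries `triple` for the input `x`. -/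
noncomputable def triples (K p : ℕ) (x : Fin n → ℤ) : Prog n q → ℕ
  | answer _ => 0
  | digits i next => (next (x i % p) (x i / (4 * p))).triples K p x
  | pair i j next => (next (signs K (x i) (x j) 0)).triples K p x
  | triple i j k next => (next (signs K (x i) (x j) (x k))).triples K p x + 1
  | read i next => (next (x i)).triples K p x
  | poly D ψ next => (next (polyval x D ψ)).triples K p x
  | sketch _ φ next => (next (φ x)).triples K p x

/-- The number of queries `read` for the input `x`. -/
noncomputable def reads (K p : ℕ) (x : Fin n → ℤ) : Prog n q → ℕ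
  | answer _ => 0
  | digits i next => (next (x i % p) (x i / (4 * p))).reads K p x
  | pair i j next => (next (signs K (x i) (x j) 0)).reads K p x
  | triple i j k next => (next (signs K (x i) (x j) (x k))).reads K p x
  | read i next => (next (x i)).reads K p x + 1
  | poly D ψ next => (next (polyval x D ψ)).reads K p x
  | sketch _ φ next => (next (φ x)).reads K p x

/-- The number of sketch bits for the input `x`: `(q - 1) D` for each query `poly D ψ`, and for each
query `sketch G φ` the binary logarithm of the number of values of `φ` for numbers between `- N`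
and `N`. -/
noncomputable def bits (K p N : ℕ) (x : Fin n → ℤ) : Prog n q → ℝ
  | answer _ => 0
  | digits i next => (next (x i % p) (x i / (4 * p))).bits K p N x
  | pair i j next => (next (signs K (x i) (x j) 0)).bits K p N x
  | triple i j k next => (next (signs K (x i) (x j) (x k))).bits K p N x
  | read i next => (next (x i)).bits K p N x
  | poly D ψ next => (next (polyval x D ψ)).bits K p N x + ((q - 1 : ℕ) : ℝ) * D
  | sketch _ φ next => (next (φ x)).bits K p N x + Real.logb 2 (values N φ)

/-- The number of queries `triple`, and `n` for each read number and each sketch bit. -/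
noncomputable def cost (K p N : ℕ) (x : Fin n → ℤ) (P : Prog n q) : ℝ :=
  P.triples K p x + n * (P.reads K p x + P.bits K p N x)

end Prog

end Pool.Agent.J6H11.Sk3
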