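import Pool.Agent.J6H11.Sk3.Inst

/-!
# Forms in three numbers of the instance
-/

set_option autoImplicit false

namespace Pool.Agent.J6H11.Sk3

open Finset

/-- the changes of the numbers -/
def dl (ε : ℤ → ℤ) (s : ℤ) (v : Fin 4 × ℤ) : ℤ :=
  if v.1 = 0 then -ε v.2 else if v.1 = 1 then -ε (v.2 + s) else
    if v.1 = 2 then (if 2 ∣ v.2 + s then ε ((v.2 + s) / 2) else 0) else 0

theorem dl_abs {ε : ℤ → ℤ} (hε : ∀ i, |ε i| ≤ 1) (s : ℤ) (v : Fin 4 × ℤ) : |dl ε s v| ≤ 1 := by
  unfold dl
  split_ifs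
  · rw [abs_neg]; exact hε _
  · rw [abs_neg]; exact hε _
  · exact hε _
  · simp
  · simp

theorem formal {K m d : ℕ} {S : Finset ℤ} {τ : ℤ} (hS : Free K S) (ε : ℤ → ℤ) (s : ℤ)
    {v1 v2 v3 : Fin 4 × ℤ} (h1 : v1 ∈ WW m d S τ) (h2 : v2 ∈ WW m d S τ) (h3 : v3 ∈ WW m d S τ)
    {α β γ : ℤ} (hα : |α| ≤ K) (hβ : |β| ≤ K) (hγ : |γ| ≤ K)
    (hcs : ∀ c, cs c v1.1 v2.1 v3.1 α β γ = 0) (hk : α * v1.2 + β * v2.2 + γ * v3.2 = 0) :
    α * dl ε s v1 + β * dl ε s v2 + γ * dl ε s v3 = 0 := by
  obtain ⟨c1, k1⟩ := v1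
  obtain ⟨c2, k2⟩ := v2
  obtain ⟨c3, k3⟩ := v3
  simp only at hcs hk
  have two : ∀ (c : Fin 4) (x y : ℤ) (α β : ℤ), α + β = 0 → α * x + β * y = 0 →
      α * dl ε s (c, x) + β * dl ε s (c, y) = 0 := by
    intro c x y α β h0 h1
    have h2 : β = -α := by omega
    subst h2
    have h3 : α * (x - y) = 0 := by linear_combination h1
    rcases mul_eq_zero.1 h3 with h4 | h4
    · subst h4; ring
    · have : x = y := by omega
      subst this
      ring
  by_cases h12 : c1 = c2
  · subst h12
    by_cases h13 : c1 = c3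
    · subst h13
      have h0 := hcs c1
      simp only [cs, if_true] at h0
      rw [mem_WW] at h1 h2 h3
      rcases h1 with h1 | h1 | h1 | h1
      · have e := h1.1
        simp only at e
        subst e
        simp only [true_and, Fin.isValue, zero_ne_one, false_and, or_false] at h1 h2 h3
        have h2' : k2 ∈ S := by simpa using h2
        have h3' : k3 ∈ S := by simpa using h3
        exact cancel3 hS h1 h2' h3' h0 hk hα hβ hγ (fun k => dl ε s (0, k))
      · have e := h1.1
        simp only at e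
        subst e
        have h1' : k1 ∈ S := h1.2
        have h2' : k2 ∈ S := by simpa using h2
        have h3' : k3 ∈ S := by simpa using h3
        exact cancel3 hS h1' h2' h3' h0 hk hα hβ hγ (fun k => dl ε s (1, k))
      · have e := h1.1
        simp only at e
        subst e
        have h1' : k1 - τ ∈ S := h1.2
        have h2' : k2 - τ ∈ S := by simpa using h2
        have h3' : k3 - τ ∈ S := by simpa using h3
        have := cancel3 hS h1' h2' h3' h0 (by linear_combination hk - τ * h0) hα hβ hγ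
          (fun k => dl ε s (2, k + τ))
        simpa using this
      · have e := h1.1
        simp only at e
        subst e
        simp [dl]
    · have h0 := hcs c1
      have h0' := hcs c3
      have h31 : ¬ c3 = c1 := fun h => h13 h.symm
      simp only [cs, if_true, h13, h31, if_false, add_zero, zero_add] at h0 h0'
      subst h0'
      have := two c1 k1 k2 α β h0 (by linear_combination hk)
      linear_combination this
  · have h21 : ¬ c2 = c1 := fun h => h12 h.symm
    by_cases h13 : c1 = c3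
    · subst h13
      have h0 := hcs c1
      have h0' := hcs c2
      simp only [cs, if_true, h12, h21, if_false, add_zero, zero_add] at h0 h0'
      subst h0'
      have := two c1 k1 k3 α γ h0 (by linear_combination hk)
      linear_combination this
    · have h31 : ¬ c3 = c1 := fun h => h13 h.symm
      have h0 := hcs c1
      simp only [cs, if_true, h21, h31, if_false, add_zero, zero_add] at h0
      subst h0
      by_cases h23 : c2 = c3
      · subst h23
        have h0' := hcs c2
        simp only [cs, if_true, h12, if_false, add_zero, zero_add] at h0'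
        have := two c2 k2 k3 β γ h0' (by linear_combination hk)
        linear_combination this
      · have h32 : ¬ c3 = c2 := fun h => h23 h.symm
        have h0' := hcs c2
        have h0'' := hcs c3
        simp only [cs, if_true, h12, h13, h23, h32, if_false, add_zero, zero_add] at h0' h0''
        subst h0' h0''
        ring

/-- bounds for the places -/
theorem place_abs {m d : ℕ} {S : Finset ℤ} {τ : ℤ} (hm : ∀ x ∈ S, 0 ≤ x ∧ x < m) (hτ : |τ| ≤ 2 * m)
    (hd : d ≤ m) {v : Fin 4 × ℤ} (hv : v ∈ WW m d S τ) : |v.2| ≤ 3 * m := by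
  rw [abs_le] at *
  rcases mem_WW.1 hv with h | h | h | h
  · have := hm _ h.2
    omega
  · have := hm _ h.2
    omega
  · have := hm _ h.2
    omega
  · have : (d : ℤ) ≤ m := by exact_mod_cast hd
    omega

theorem abs_mul_le {K : ℕ} {α x b : ℤ} (hα : |α| ≤ K) (hx : |x| ≤ b) : |α * x| ≤ K * b := by
  rw [abs_mul]
  exact mul_le_mul hα hx (abs_nonneg _) (Int.natCast_nonneg K)

/-- The three kinds of forms. -/
theorem form_cases {K m d : ℕ} {S : Finset ℤ} {τ : ℤ} (hK : 2 ≤ K)
    (hm : ∀ x ∈ S, 0 ≤ x ∧ x < m) (hτ : |τ| ≤ 2 * m) (hd : d ≤ m)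
    {v1 v2 v3 : Fin 4 × ℤ} (h1 : v1 ∈ WW m d S τ) (h2 : v2 ∈ WW m d S τ) (h3 : v3 ∈ WW m d S τ)
    {α β γ : ℤ} (hα : |α| ≤ K) (hβ : |β| ≤ K) (hγ : |γ| ≤ K) :
    (∃ Y : ℤ, Y ≠ 0 ∧ ∀ δ : Fin 4 × ℤ → ℤ, (∀ v, |δ v| ≤ 1) → ∃ η : ℤ, |η| < 12 * K ∧
      α * (yy K m v1 + δ v1) + β * (yy K m v2 + δ v2) + γ * (yy K m v3 + δ v3) =
        η + 12 * K * Y) ∨
    ((∀ c, cs c v1.1 v2.1 v3.1 α β γ = 0) ∧ α * v1.2 + β * v2.2 + γ * v3.2 = 0 ∧
      α * yy K m v1 + β * yy K m v2 + γ * yy K m v3 = 0) ∨
    (∃ c i j : ℤ, c ≠ 0 ∧ (0, i) ∈ WW m d S τ ∧ (1, j) ∈ WW m d S τ ∧ (2, i + j) ∈ WW m d S τ ∧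
      ({v1, v2, v3} : Finset (Fin 4 × ℤ)) = {(0, i), (1, j), (2, i + j)} ∧
      ∀ f : Fin 4 × ℤ → ℤ, α * f v1 + β * f v2 + γ * f v3 =
        c * (f (0, i) + f (1, j) - f (2, i + j))) := by
  have hKz : (2 : ℤ) ≤ K := by exact_mod_cast hK
  obtain ⟨κ, hκ⟩ : ∃ κ, κ = α * v1.2 + β * v2.2 + γ * v3.2 := ⟨_, rfl⟩
  obtain ⟨Z, hZ⟩ : ∃ Z, Z = α * zc K v1.1 + β * zc K v2.1 + γ * zc K v3.1 := ⟨_, rfl⟩
  have hκb : |κ| ≤ 9 * K * m := by
    have e1 := abs_mul_le hα (place_abs hm hτ hd h1)
    have e2 := abs_mul_le hβ (place_abs hm hτ hd h2)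
    have e3 := abs_mul_le hγ (place_abs hm hτ hd h3)
    rw [hκ]
    calc |α * v1.2 + β * v2.2 + γ * v3.2| ≤ |α * v1.2| + |β * v2.2| + |γ * v3.2| := abs_add_three _ _ _
      _ ≤ K * (3 * m) + K * (3 * m) + K * (3 * m) := by linarith
      _ = 9 * K * m := by ring
  have hyy : ∀ δ : Fin 4 × ℤ → ℤ,
      α * (yy K m v1 + δ v1) + β * (yy K m v2 + δ v2) + γ * (yy K m v3 + δ v3) =
      (α * (hc v1.1 + δ v1) + β * (hc v2.1 + δ v2) + γ * (hc v3.1 + δ v3)) +
        12 * K * (κ + (9 * K * m + 1) * Z) := by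
    intro δ
    rw [hκ, hZ]
    unfold yy
    ring
  by_cases hY : κ + (9 * K * m + 1) * Z = 0
  · right
    have hZ0 : Z = 0 := by
      by_contra hZ0
      have h4 : |(9 * (K : ℤ) * m + 1) * Z| = |κ| := by
        rw [← abs_neg κ]
        congr 1
        linear_combination hY
      have h5 : |(9 * (K : ℤ) * m + 1) * Z| ≥ 9 * K * m + 1 := by
        rw [abs_mul, abs_of_pos (by positivity : (0 : ℤ) < 9 * K * m + 1)]
        have : 1 ≤ |Z| := Int.one_le_abs hZ0
        have h6 : (0 : ℤ) ≤ 9 * K * m + 1 := by positivity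
        nlinarith
      omega
    have hκ0 : κ = 0 := by rw [hZ0] at hY; linarith
    rw [hZ0, cs_zc] at hZ
    obtain ⟨z1, z2, z3⟩ := zones _ _ _ (cs_abs hα hβ hγ v1.1 v2.1 v3.1).1
      (cs_abs hα hβ hγ v1.1 v2.1 v3.1).2 hZ.symm
    by_cases hs2 : cs 2 v1.1 v2.1 v3.1 α β γ = 0
    · left
      have hall : ∀ c, cs c v1.1 v2.1 v3.1 α β γ = 0 := by
        intro c
        fin_cases c
        · show cs 0 v1.1 v2.1 v3.1 α β γ = 0
          omega
        · show cs 1 v1.1 v2.1 v3.1 α β γ = 0
          omega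
        · exact hs2
        · exact z3
      refine ⟨hall, by rw [← hκ, hκ0], ?_⟩
      have h4 := hyy (fun _ => 0)
      simp only [add_zero] at h4
      rw [h4, hY, mul_zero, add_zero, cs_hc, hall 0, hall 1, hall 2, hall 3]
      ring
    · right
      rw [hκ0] at hκ
      obtain ⟨c1, k1⟩ := v1
      obtain ⟨c2, k2⟩ := v2
      obtain ⟨c3, k3⟩ := v3
      simp only at z1 z2 z3 hs2 hκ
      have hperm : (c1 = 0 ∧ c2 = 1 ∧ c3 = 2) ∨ (c1 = 0 ∧ c2 = 2 ∧ c3 = 1) ∨
          (c1 = 1 ∧ c2 = 0 ∧ c3 = 2) ∨ (c1 = 1 ∧ c2 = 2 ∧ c3 = 0) ∨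
          (c1 = 2 ∧ c2 = 0 ∧ c3 = 1) ∨ (c1 = 2 ∧ c2 = 1 ∧ c3 = 0) := by
        clear h1 h2 h3 hyy hY
        revert z1 z2 z3 hs2
        fin_cases c1 <;> fin_cases c2 <;> fin_cases c3 <;> simp [cs] <;> omega
      rcases hperm with ⟨rfl, rfl, rfl⟩ | ⟨rfl, rfl, rfl⟩ | ⟨rfl, rfl, rfl⟩ | ⟨rfl, rfl, rfl⟩ |
        ⟨rfl, rfl, rfl⟩ | ⟨rfl, rfl, rfl⟩
      · simp [cs] at z1 z2 hs2
        have e1 : α = -γ := by omega
        have e2 : β = -γ := by omega
        subst e1 e2
        have e3 : γ * (k1 + k2 - k3) = 0 := by linear_combination hκ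
        have e4 : k3 = k1 + k2 := by
          rcases mul_eq_zero.1 e3 with h | h
          · exact absurd h hs2
          · omega
        subst e4
        exact ⟨-γ, k1, k2, by omega, h1, h2, h3, rfl, fun f => by ring⟩
      · simp [cs] at z1 z2 hs2
        have e1 : α = -β := by omega
        have e2 : γ = -β := by omega
        subst e1 e2
        have e3 : β * (k1 + k3 - k2) = 0 := by linear_combination hκ
        have e4 : k2 = k1 + k3 := by
          rcases mul_eq_zero.1 e3 with h | h
          · exact absurd h hs2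
          · omega
        subst e4
        refine ⟨-β, k1, k3, by omega, h1, h3, h2, ?_, fun f => by ring⟩
        ext v
        simp only [Finset.mem_insert, Finset.mem_singleton]
        tauto
      · simp [cs] at z1 z2 hs2
        have e1 : α = -γ := by omega
        have e2 : β = -γ := by omega
        subst e1 e2
        have e3 : γ * (k1 + k2 - k3) = 0 := by linear_combination hκ
        have e4 : k3 = k2 + k1 := by
          rcases mul_eq_zero.1 e3 with h | h
          · exact absurd h hs2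
          · omega
        subst e4
        refine ⟨-γ, k2, k1, by omega, h2, h1, h3, ?_, fun f => by ring⟩
        ext v
        simp only [Finset.mem_insert, Finset.mem_singleton]
        tauto
      · simp [cs] at z1 z2 hs2
        have e1 : α = -β := by omega
        have e2 : γ = -β := by omega
        subst e1 e2
        have e3 : β * (k1 + k3 - k2) = 0 := by linear_combination hκ
        have e4 : k2 = k3 + k1 := by
          rcases mul_eq_zero.1 e3 with h | h
          · exact absurd h hs2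
          · omega
        subst e4
        refine ⟨-β, k3, k1, by omega, h3, h1, h2, ?_, fun f => by ring⟩
        ext v
        simp only [Finset.mem_insert, Finset.mem_singleton]
        tauto
      · simp [cs] at z1 z2 hs2
        have e1 : β = -α := by omega
        have e2 : γ = -α := by omega
        subst e1 e2
        have e3 : α * (k2 + k3 - k1) = 0 := by linear_combination hκ
        have e4 : k1 = k2 + k3 := by
          rcases mul_eq_zero.1 e3 with h | h
          · exact absurd h hs2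
          · omega
        subst e4
        refine ⟨-α, k2, k3, by omega, h2, h3, h1, ?_, fun f => by ring⟩
        ext v
        simp only [Finset.mem_insert, Finset.mem_singleton]
        tauto
      · simp [cs] at z1 z2 hs2
        have e1 : β = -α := by omega
        have e2 : γ = -α := by omega
        subst e1 e2
        have e3 : α * (k2 + k3 - k1) = 0 := by linear_combination hκ
        have e4 : k1 = k3 + k2 := by
          rcases mul_eq_zero.1 e3 with h | h
          · exact absurd h hs2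
          · omega
        subst e4
        refine ⟨-α, k3, k2, by omega, h3, h2, h1, ?_, fun f => by ring⟩
        ext v
        simp only [Finset.mem_insert, Finset.mem_singleton]
        tauto
  · left
    refine ⟨_, hY, fun δ hδ => ⟨_, ?_, hyy δ⟩⟩
    have hh : ∀ v : Fin 4 × ℤ, |hc v.1 + δ v| ≤ 3 := by
      intro v
      have h4 := hδ v
      rw [abs_le] at *
      obtain ⟨c, k⟩ := v
      have h5 : 1 ≤ hc c ∧ hc c ≤ 2 := by
        fin_cases c <;> simp [hc]
      simp only
      omega
    have e1 := abs_mul_le hα (hh v1)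
    have e2 := abs_mul_le hβ (hh v2)
    have e3 := abs_mul_le hγ (hh v3)
    have e4 := abs_add_three (α * (hc v1.1 + δ v1)) (β * (hc v2.1 + δ v2)) (γ * (hc v3.1 + δ v3))
    omega

end Pool.Agent.J6H11.Sk3
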