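import Pool.Agent.J6H11.Sk3.Beh

/-!
# The instance
-/

set_option autoImplicit false

namespace Pool.Agent.J6H11.Sk3

open Finset

/-- In a set without convex relations, vanishing forms vanish formally. -/
theorem cancel3 {K : ℕ} {S : Finset ℤ} (hS : Free K S) {x y z : ℤ} (hx : x ∈ S) (hy : y ∈ S)
    (hz : z ∈ S) {α β γ : ℤ} (h0 : α + β + γ = 0) (h1 : α * x + β * y + γ * z = 0)
    (hα : |α| ≤ K) (hβ : |β| ≤ K) (hγ : |γ| ≤ K) (σ : ℤ → ℤ) :
    α * σ x + β * σ y + γ * σ z = 0 := by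
  rw [abs_le] at hα hβ hγ
  -- two coefficients of the same sign
  have key : ∀ x y z : ℤ, x ∈ S → y ∈ S → z ∈ S → ∀ α β : ℤ, 1 ≤ α → 1 ≤ β → α + β ≤ K →
      α * x + β * y = (α + β) * z → x = z ∧ y = z := by
    intro x y z hx hy hz α β hα hβ hK h
    have h1 := hS α β hα hβ hK x hx y hy z hz h
    subst h1
    have h2 : (α + β) * (x - z) = 0 := by linear_combination h
    rcases mul_eq_zero.1 h2 with h3 | h3
    · omega
    · constructor <;> omega
  -- all keys with signs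
  have key' : ∀ x y z : ℤ, x ∈ S → y ∈ S → z ∈ S → ∀ α β : ℤ, (1 ≤ α ∧ 1 ≤ β ∨ α ≤ -1 ∧ β ≤ -1) →
      |α + β| ≤ K → α * x + β * y = (α + β) * z → x = z ∧ y = z := by
    intro x y z hx hy hz α β hαβ hK h
    rcases hαβ with ⟨h1, h2⟩ | ⟨h1, h2⟩
    · exact key x y z hx hy hz α β h1 h2 (abs_le.1 hK).2 h
    · refine key x y z hx hy hz (-α) (-β) (by omega) (by omega) ?_ (by linear_combination -h)
      have := (abs_le.1 hK).1
      omega
  have two : ∀ x y : ℤ, ∀ α β : ℤ, α + β = 0 → α * x + β * y = 0 → α * σ x + β * σ y = 0 := by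
    intro x y α β h0 h1
    have h2 : β = -α := by omega
    subst h2
    have h3 : α * (x - y) = 0 := by linear_combination h1
    rcases mul_eq_zero.1 h3 with h4 | h4
    · subst h4; ring
    · have : x = y := by omega
      subst this
      ring
  rcases eq_or_ne α 0 with hα0 | hα0
  · subst hα0
    have := two y z β γ (by omega) (by linear_combination h1)
    linear_combination this
  rcases eq_or_ne β 0 with hβ0 | hβ0
  · subst hβ0
    have := two x z α γ (by omega) (by linear_combination h1)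
    linear_combination this
  rcases eq_or_ne γ 0 with hγ0 | hγ0
  · subst hγ0
    have := two x y α β (by omega) (by linear_combination h1)
    linear_combination this
  have hsame : (1 ≤ α ∧ 1 ≤ β ∨ α ≤ -1 ∧ β ≤ -1) ∨ (1 ≤ α ∧ 1 ≤ γ ∨ α ≤ -1 ∧ γ ≤ -1) ∨
      (1 ≤ β ∧ 1 ≤ γ ∨ β ≤ -1 ∧ γ ≤ -1) := by omega
  rcases hsame with h | h | h
  · obtain ⟨e1, e2⟩ := key' x y z hx hy hz α β h (by rw [abs_le]; omega)
      (by linear_combination h1 - z * h0)
    rw [e1, e2]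
    linear_combination σ z * h0
  · obtain ⟨e1, e2⟩ := key' x z y hx hz hy α γ h (by rw [abs_le]; omega)
      (by linear_combination h1 - y * h0)
    rw [e1, e2]
    linear_combination σ y * h0
  · obtain ⟨e1, e2⟩ := key' y z x hy hz hx β γ h (by rw [abs_le]; omega)
      (by linear_combination h1 - x * h0)
    rw [e1, e2]
    linear_combination σ x * h0

/-- the zones -/
def zc (K : ℕ) : Fin 4 → ℤ := ![1, 3 * K + 1, 3 * K + 2, (3 * K + 1) ^ 2]

/-- the residues -/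
def hc : Fin 4 → ℤ := ![2, 2, 1, 2]

/-- the numbers -/
def yy (K m : ℕ) (v : Fin 4 × ℤ) : ℤ :=
  hc v.1 + 12 * K * (v.2 + (9 * K * m + 1) * zc K v.1)

/-- the items of the instance -/
noncomputable def WW (m d : ℕ) (S : Finset ℤ) (τ : ℤ) : Finset (Fin 4 × ℤ) :=
  ((({0} : Finset (Fin 4)) ×ˢ S) ∪ ({1} ×ˢ S)) ∪
    (({2} ×ˢ (S.image fun l => l + τ)) ∪ ({3} ×ˢ Finset.Ico 0 (d : ℤ)))

theorem mem_WW {m d : ℕ} {S : Finset ℤ} {τ : ℤ} {v : Fin 4 × ℤ} :
    v ∈ WW m d S τ ↔ (v.1 = 0 ∧ v.2 ∈ S) ∨ (v.1 = 1 ∧ v.2 ∈ S) ∨ (v.1 = 2 ∧ v.2 - τ ∈ S) ∨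
      (v.1 = 3 ∧ 0 ≤ v.2 ∧ v.2 < d) := by
  obtain ⟨c, k⟩ := v
  simp only [WW, Finset.mem_union, Finset.mem_product, Finset.mem_singleton, Finset.mem_image,
    Finset.mem_Ico]
  have : (∃ a ∈ S, a + τ = k) ↔ k - τ ∈ S := by
    constructor
    · rintro ⟨a, ha, rfl⟩
      simpa using ha
    · intro h
      exact ⟨k - τ, h, by ring⟩
  rw [this]
  tauto

theorem card_WW (m d : ℕ) (S : Finset ℤ) (τ : ℤ) : (WW m d S τ).card = 3 * S.card + d := by
  have h1 : Disjoint (({0} : Finset (Fin 4)) ×ˢ S) ({1} ×ˢ S) := by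
    rw [Finset.disjoint_left]
    rintro ⟨c, k⟩ h1 h2
    simp only [Finset.mem_product, Finset.mem_singleton] at h1 h2
    rw [h1.1] at h2
    exact absurd h2.1 (by decide)
  have h2 : Disjoint (({2} : Finset (Fin 4)) ×ˢ (S.image fun l => l + τ))
      ({3} ×ˢ Finset.Ico 0 (d : ℤ)) := by
    rw [Finset.disjoint_left]
    rintro ⟨c, k⟩ h1 h2
    simp only [Finset.mem_product, Finset.mem_singleton] at h1 h2
    rw [h1.1] at h2
    exact absurd h2.1 (by decide)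
  have h3 : Disjoint ((({0} : Finset (Fin 4)) ×ˢ S) ∪ ({1} ×ˢ S))
      (({2} ×ˢ (S.image fun l => l + τ)) ∪ ({3} ×ˢ Finset.Ico 0 (d : ℤ))) := by
    rw [Finset.disjoint_left]
    rintro ⟨c, k⟩ h1 h2
    simp only [Finset.mem_union, Finset.mem_product, Finset.mem_singleton] at h1 h2
    rcases h1 with h1 | h1 <;> rcases h2 with h2 | h2 <;>
    · rw [h1.1] at h2
      exact absurd h2.1 (by decide)
  unfold WW
  rw [Finset.card_union_of_disjoint h3, Finset.card_union_of_disjoint h1,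
    Finset.card_union_of_disjoint h2, Finset.card_product, Finset.card_product,
    Finset.card_product, Finset.card_product, Finset.card_singleton, Finset.card_singleton,
    Finset.card_singleton, Finset.card_singleton, Finset.card_image_of_injective _
    (fun a b h => by simpa using h), Int.card_Ico]
  simp
  ring

/-- the coefficient sums of the zones -/
theorem zones {K : ℕ} (X Y W : ℤ) (hX : |X| ≤ 3 * K) (hY : |Y| ≤ 3 * K)
    (h : X + (3 * K + 1) * Y + (3 * K + 1) ^ 2 * W = 0) : X = 0 ∧ Y = 0 ∧ W = 0 := by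
  rw [abs_le] at hX hY
  have hK : (0 : ℤ) ≤ K := Int.natCast_nonneg K
  have h1 : X = 0 := by
    have h2 : (3 * (K : ℤ) + 1) ∣ X := by
      refine ⟨-(Y + (3 * K + 1) * W), ?_⟩
      linear_combination h
    exact Int.eq_zero_of_abs_lt_dvd h2 (by rw [abs_lt]; omega)
  subst h1
  have h3 : (3 * (K : ℤ) + 1) * (Y + (3 * K + 1) * W) = 0 := by linear_combination h
  have h4 : Y + (3 * K + 1) * W = 0 := by
    rcases mul_eq_zero.1 h3 with h5 | h5
    · omega
    · exact h5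
  have h5 : Y = 0 := by
    have h2 : (3 * (K : ℤ) + 1) ∣ Y := by
      refine ⟨-W, ?_⟩
      linear_combination h4
    exact Int.eq_zero_of_abs_lt_dvd h2 (by rw [abs_lt]; omega)
  subst h5
  refine ⟨rfl, rfl, ?_⟩
  have h6 : (3 * (K : ℤ) + 1) * W = 0 := by linear_combination h4
  rcases mul_eq_zero.1 h6 with h7 | h7
  · omega
  · exact h7

/-- the coefficient sum of a zone -/
def cs (c c1 c2 c3 : Fin 4) (α β γ : ℤ) : ℤ :=
  (if c1 = c then α else 0) + (if c2 = c then β else 0) + (if c3 = c then γ else 0)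

theorem cs_abs {K : ℕ} {α β γ : ℤ} (hα : |α| ≤ K) (hβ : |β| ≤ K) (hγ : |γ| ≤ K)
    (c1 c2 c3 : Fin 4) :
    |cs 0 c1 c2 c3 α β γ + cs 2 c1 c2 c3 α β γ| ≤ 3 * K ∧
    |cs 1 c1 c2 c3 α β γ + cs 2 c1 c2 c3 α β γ| ≤ 3 * K := by
  rw [abs_le] at *
  rw [abs_le]
  have hK : (0 : ℤ) ≤ K := Int.natCast_nonneg K
  fin_cases c1 <;> fin_cases c2 <;> fin_cases c3 <;> simp [cs] <;> omega

theorem cs_zc (K : ℕ) (α β γ : ℤ) (c1 c2 c3 : Fin 4) :
    α * zc K c1 + β * zc K c2 + γ * zc K c3 =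
      (cs 0 c1 c2 c3 α β γ + cs 2 c1 c2 c3 α β γ) +
      (3 * K + 1) * (cs 1 c1 c2 c3 α β γ + cs 2 c1 c2 c3 α β γ) +
      (3 * K + 1) ^ 2 * cs 3 c1 c2 c3 α β γ := by
  fin_cases c1 <;> fin_cases c2 <;> fin_cases c3 <;> simp [cs, zc] <;> ring

theorem cs_hc (α β γ : ℤ) (c1 c2 c3 : Fin 4) :
    α * hc c1 + β * hc c2 + γ * hc c3 =
      2 * cs 0 c1 c2 c3 α β γ + 2 * cs 1 c1 c2 c3 α β γ + cs 2 c1 c2 c3 α β γ +
      2 * cs 3 c1 c2 c3 α β γ := by
  fin_cases c1 <;> fin_cases c2 <;> fin_cases c3 <;> simp [cs, hc] <;> ring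

theorem cs_sum (α β γ : ℤ) (c1 c2 c3 : Fin 4) :
    α + β + γ = cs 0 c1 c2 c3 α β γ + cs 1 c1 c2 c3 α β γ + cs 2 c1 c2 c3 α β γ +
      cs 3 c1 c2 c3 α β γ := by
  fin_cases c1 <;> fin_cases c2 <;> fin_cases c3 <;> simp [cs] <;> ring

end Pool.Agent.J6H11.Sk3
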