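import Pool.Agent.J6H11.Sk3.Count

/-!
# Sketches
-/

set_option autoImplicit false

namespace Pool.Agent.J6H11.Sk3

open Finset

/-- the indicator function -/
def ind (J : Finset ℤ) (i : ℤ) : ℤ := if i ∈ J then 1 else 0

theorem dl_sub (ε ε' : ℤ → ℤ) (s : ℤ) (v : Fin 4 × ℤ) :
    dl (fun i => ε i - ε' i) s v = dl ε s v - dl ε' s v := by
  unfold dl
  split_ifs <;> ring

theorem ind_abs (J : Finset ℤ) (i : ℤ) : |ind J i| ≤ 1 := by
  unfold ind
  split_ifs <;> simp

theorem ind_sub_abs (J J' : Finset ℤ) (i : ℤ) : |ind J i - ind J' i| ≤ 1 := by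
  unfold ind
  split_ifs <;> simp

theorem ind_sub_one {J J' : Finset ℤ} {i : ℤ} : ind J i - ind J' i = 1 ↔ i ∈ J \ J' := by
  unfold ind
  rw [Finset.mem_sdiff]
  by_cases h1 : i ∈ J <;> by_cases h2 : i ∈ J' <;> simp [h1, h2]

theorem ind_sub_neg {J J' : Finset ℤ} {i : ℤ} : ind J i - ind J' i = -1 ↔ i ∈ J' \ J := by
  unfold ind
  rw [Finset.mem_sdiff]
  by_cases h1 : i ∈ J <;> by_cases h2 : i ∈ J' <;> simp [h1, h2]

theorem ind_sub_ne {J J' : Finset ℤ} {i : ℤ} (h : ind J i - ind J' i ≠ 0) :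
    i ∈ J \ J' ∨ i ∈ J' \ J := by
  unfold ind at h
  rw [Finset.mem_sdiff, Finset.mem_sdiff]
  by_cases h1 : i ∈ J <;> by_cases h2 : i ∈ J' <;> simp [h1, h2] at h ⊢

section

variable {n N K m d p q : ℕ} {S : Finset ℤ} {τ : ℤ}

/-- a number depends on at most one of the sets in a simple way -/
theorem one_var (q : ℕ) [Fact q.Prime] (e : Fin n → Fin 4 × ℤ) (s : ℤ) (I J : Finset ℤ)
    (hJ : J ⊆ I) (a : Fin n) :
    ∃ (b : Finset ℤ → Bool) (u : Bool → ℤ),
      (∀ J' ⊆ I, XX K m p e (fun i => ind J i - ind J' i) s a = u (b J')) ∧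
      ∀ F : Finset (Finset ℤ), (fun J' : F => if b J'.1 = true then (1 : ZMod q) else 0) ∈
        MM q I F := by
  by_cases h : ∃ i ∈ I, e a ∈ ts (i, i - s)
  · obtain ⟨i, hi, hv⟩ := h
    refine ⟨fun J' => decide (i ∈ J'),
      fun c => XX K m p e (fun _ => ind J i - (if c then 1 else 0)) s a, ?_, ?_⟩
    · intro J' _
      unfold XX ys
      rw [dl_congr (ε' := fun _ => ind J i - (if decide (i ∈ J') then 1 else 0)) hv]
      simp [ind]
    · intro F
      have h1 := ind_mem_MM q I F hi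
      simpa using h1
  · refine ⟨fun _ => false, fun _ => X0 K m p e a, ?_, ?_⟩
    · intro J' hJ'
      unfold XX X0 ys
      have h2 : dl (fun i => ind J i - ind J' i) s (e a) = 0 := by
        by_contra h3
        obtain ⟨i, h4, h5⟩ := dl_ne h3
        rcases ind_sub_ne h4 with h6 | h6
        · exact h ⟨i, hJ (Finset.mem_sdiff.1 h6).1, h5⟩
        · exact h ⟨i, hJ' (Finset.mem_sdiff.1 h6).1, h5⟩
      rw [h2, add_zero]
    · intro F
      have : (fun _ : F => if false = true then (1 : ZMod q) else 0) = 0 := by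
        funext J'
        simp
      rw [this]
      exact Submodule.zero_mem _

/-- the degree of a query -/
theorem poly_deg (q : ℕ) [Fact q.Prime] (e : Fin n → Fin 4 × ℤ) (s : ℤ) (I J : Finset ℤ)
    (hJ : J ⊆ I) (F : Finset (Finset ℤ)) (hF : ∀ J' ∈ F, J' ⊆ I) (D : ℕ)
    (ψ : (Fin D → Fin n) → (Fin D → ℤ) → ZMod q) :
    (fun J' : F => polyval (XX K m p e (fun i => ind J i - ind J'.1 i) s) D ψ) ∈
      MM q I F ^ D := by
  classical
  have h1 : (fun J' : F => polyval (XX K m p e (fun i => ind J i - ind J'.1 i) s) D ψ) =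
      ∑ r : Fin D → Fin n, fun J' : F =>
        ψ r fun j => XX K m p e (fun i => ind J i - ind J'.1 i) s (r j) := by
    funext J'
    rw [Finset.sum_apply]
    rfl
  rw [h1]
  refine Submodule.sum_mem _ fun r _ => ?_
  choose b u hbu hM using fun j => one_var (K := K) (m := m) (p := p) q e s I J hJ (r j)
  obtain ⟨g, hg⟩ : ∃ g : Fin D → Bool → F → ZMod q, g = fun j c J' =>
    if b j J'.1 = c then 1 else 0 := ⟨_, rfl⟩
  have hgM : ∀ j c, g j c ∈ MM q I F := by
    intro j c
    cases c with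
    | true => rw [hg]; exact hM j F
    | false =>
      have h2 : g j false = 1 - g j true := by
        rw [hg]
        funext J'
        simp only [Pi.sub_apply, Pi.one_apply]
        cases b j J'.1 <;> simp
      rw [h2]
      refine Submodule.sub_mem _ (one_mem_MM q I F) ?_
      rw [hg]
      exact hM j F
  have h2 : (fun J' : F => ψ r fun j => XX K m p e (fun i => ind J i - ind J'.1 i) s (r j)) =
      ∑ β : Fin D → Bool, (ψ r fun j => u j (β j)) • ∏ j, g j (β j) := by
    funext J'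
    rw [Finset.sum_apply, Finset.sum_eq_single (fun j => b j J'.1)]
    · rw [Pi.smul_apply, Finset.prod_apply, Finset.prod_eq_one, smul_eq_mul, mul_one]
      · congr 1
        funext j
        exact hbu j J'.1 (hF _ J'.2)
      · intro j _
        rw [hg]
        simp
    · intro β _ hβ
      obtain ⟨j, hj⟩ : ∃ j, b j J'.1 ≠ β j := by
        by_contra hcon
        push Not at hcon
        exact hβ (funext fun j => (hcon j).symm)
      rw [Pi.smul_apply, Finset.prod_apply, Finset.prod_eq_zero (Finset.mem_univ j), smul_zero]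
      rw [hg]
      simp [hj]
    · intro h; exact absurd (Finset.mem_univ _) h
  rw [h2]
  refine Submodule.sum_mem _ fun β _ => Submodule.smul_mem _ _ ?_
  exact prod_mem_pow q I F D _ fun j => hgM j (β j)

/-- The bound for a line. -/
theorem main_line (H : Setup n N K m d p S τ) {e : Fin n → Fin 4 × ℤ}
    (he : ∀ i, e i ∈ WW m d S τ) (hei : Function.Injective e)
    (hes : ∀ v ∈ WW m d S τ, ∃ i, e i = v) {K0 : ℕ} (hK0 : K0 ≤ K) [Fact q.Prime]
    (P : Prog n q) (hsound : ∀ x, Valid N x → Solvable x → P.eval K0 p x = true)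
    (hno : P.eval K0 p (X0 K m p e) = false) (s : ℤ) (I : Finset ℤ)
    (hI : ∀ i ∈ I, (i, i - s) ∈ TT S τ ∧ ¬ Tch K m p K0 e P (i, i - s)) :
    2 ^ I.card ≤ (I.card + 1) ^ (deg q (fun c => c.1) (P.pars K0 p (X0 K m p e)) + 1) *
      P.vals K0 p N (X0 K m p e) := by
  classical
  obtain ⟨L, hL⟩ : ∃ L, L = P.pars K0 p (X0 K m p e) := ⟨_, rfl⟩
  rw [← hL]
  obtain ⟨F', h1, h2, h3⟩ := P.pigeon K0 p N (X0 K m p e)
    (fun J : Finset ℤ => XX K m p e (ind J) s) I.powerset
    (fun J _ => (XX_valid H he hei (ind_abs J) s).2)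
  rw [Finset.card_powerset] at h2
  by_contra hcon
  push Not at hcon
  have hbig : (I.card + 1) ^ (deg q (fun c => c.1) L + 1) < F'.card := by
    by_contra h4
    push Not at h4
    have h5 := Nat.mul_le_mul_right (P.vals K0 p N (X0 K m p e)) h4
    omega
  have hF'I : ∀ J ∈ F', J ⊆ I := fun J hJ => Finset.mem_powerset.1 (h1 hJ)
  obtain ⟨J, hJ, J', hJ', hne, hq⟩ := exists_two q I F' hF'I
    (α := (D : ℕ) × ((Fin D → Fin n) → (Fin D → ℤ) → ZMod q)) (fun c => c.1)
    (fun c J J' => polyval (XX K m p e (fun i => ind J i - ind J' i) s) c.1 c.2 -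
      polyval (X0 K m p e) c.1 c.2) L (by
      intro F'' hF'' c _ J hJ
      have h4 := poly_deg (K := K) (m := m) (p := p) q e s I J (hF'I J (hF'' hJ)) F''
        (fun J' hJ' => hF'I J' (hF'' hJ')) c.1 c.2
      have h5 : (fun J' : F'' => polyval (XX K m p e (fun i => ind J i - ind J'.1 i) s) c.1 c.2 -
          polyval (X0 K m p e) c.1 c.2) =
          (fun J' : F'' => polyval (XX K m p e (fun i => ind J i - ind J'.1 i) s) c.1 c.2) -
          polyval (X0 K m p e) c.1 c.2 • (1 : F'' → ZMod q) := by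
        funext J'
        simp
      rw [h5]
      exact Submodule.sub_mem _ h4 (Submodule.smul_mem _ _ (one_mem_pow q I F'' c.1))) (by
      intro c _ J _
      have h4 : (fun i => ind J i - ind J i) = fun _ => 0 := by funext i; ring
      simp only [h4, XX_zero, sub_self]) hbig
  have hJI : J ⊆ I := Finset.mem_powerset.1 (h1 hJ)
  have hJI' : J' ⊆ I := Finset.mem_powerset.1 (h1 hJ')
  have hin : ∀ i, ind J i - ind J' i ≠ 0 → i ∈ I := by
    intro i hi
    rcases ind_sub_ne hi with h4 | h4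
    · exact hJI (Finset.mem_sdiff.1 h4).1
    · exact hJI' (Finset.mem_sdiff.1 h4).1
  have hag : P.eval K0 p (XX K m p e (fun i => ind J i - ind J' i) s) =
      P.eval K0 p (X0 K m p e) := by
    refine agree H he (ind_sub_abs J J') (fun i hi => ?_) s hK0 P ?_ ?_ ?_ ?_
    · have h4 := hI i (hin i (by rw [hi]; exact one_ne_zero))
      exact (mem_TT.1 h4.1).1
    · intro q hq i hi h4
      exact (hI i (hin i hi)).2 (Or.inl ⟨q, hq, h4⟩)
    · intro r hr i hi h4
      exact (hI i (hin i hi)).2 (Or.inr ⟨r, hr, h4⟩)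
    · intro c hc
      rw [← hL] at hc
      exact sub_eq_zero.1 (hq c hc)
    · have h4 := h3 J hJ J' hJ'
      have h5 : XX K m p e (fun i => ind J i - ind J' i) s - X0 K m p e =
          XX K m p e (ind J) s - XX K m p e (ind J') s := by
        funext i
        simp only [Pi.sub_apply, XX, X0, ys, dl_sub]
        ring
      rw [h5]
      exact h4
  obtain ⟨i, hi⟩ := hne
  have hi1 : ind J i - ind J' i = 1 := ind_sub_one.2 hi
  have hi2 := mem_TT.1 (hI i (hin i (by rw [hi1]; exact one_ne_zero))).1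
  have hsol : Solvable (XX K m p e (fun i => ind J i - ind J' i) s) :=
    XX_solvable hes (ε := fun i => ind J i - ind J' i) hi1 hi2.1 hi2.2.1 hi2.2.2
  rw [hno, hsound _ (XX_valid H he hei (ind_sub_abs J J') s) hsol] at hag
  exact absurd hag (by decide)

open Classical in
/-- The lower bound for one program. -/
theorem main_one (H : Setup n N K m d p S τ) {e : Fin n → Fin 4 × ℤ}
    (he : ∀ i, e i ∈ WW m d S τ) (hei : Function.Injective e)
    (hes : ∀ v ∈ WW m d S τ, ∃ i, e i = v) {K0 : ℕ} (hK0 : K0 ≤ K) [Fact q.Prime]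
    (P : Prog n q) (hsound : ∀ x, Valid N x → Solvable x → P.eval K0 p x = true)
    (hno : P.eval K0 p (X0 K m p e) = false) :
    (TT S τ).card ≤ 2 * (P.triples K0 p (X0 K m p e) + n * P.reads K0 p (X0 K m p e)) ∨
    ∃ k : ℕ, (TT S τ).card ≤ 4 * m * k ∧ k ≤ n ∧
      2 ^ k ≤ (k + 1) ^ (deg q (fun c => c.1) (P.pars K0 p (X0 K m p e)) + 1) *
        P.vals K0 p N (X0 K m p e) := by
  by_cases hc : (TT S τ).card ≤ 2 * (P.triples K0 p (X0 K m p e) + n * P.reads K0 p (X0 K m p e))
  · exact Or.inl hc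
  right
  push Not at hc
  obtain ⟨U, hU⟩ : ∃ U, U = (TT S τ).filter fun t => ¬ Tch K m p K0 e P t := ⟨_, rfl⟩
  have hUcard : (TT S τ).card ≤ 2 * U.card := by
    have h1 := card_tch H e K0 P
    have h2 := Finset.card_filter_add_card_filter_not (s := TT S τ) (Tch K m p K0 e P)
    rw [← hU] at h2
    omega
  -- the lines
  have hmaps : ∀ t ∈ U, t.1 - t.2 ∈ Finset.Ioo (-(m : ℤ)) m := by
    intro t ht
    rw [hU, Finset.mem_filter] at ht
    have h1 := mem_TT.1 ht.1
    have h2 := H.hm _ h1.1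
    have h3 := H.hm _ h1.2.1
    rw [Finset.mem_Ioo]
    omega
  have hex : ∃ s : ℤ, U.card ≤ 2 * m * (U.filter fun t => t.1 - t.2 = s).card := by
    by_contra hcon
    push Not at hcon
    have h1 : U.card = ∑ s ∈ Finset.Ioo (-(m : ℤ)) m, (U.filter fun t => t.1 - t.2 = s).card :=
      Finset.card_eq_sum_card_fiberwise hmaps
    have hm1 := H.hm1
    have h2 : 2 * m * ∑ s ∈ Finset.Ioo (-(m : ℤ)) m, (U.filter fun t => t.1 - t.2 = s).card <
        (Finset.Ioo (-(m : ℤ)) m).card * U.card := by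
      rw [Finset.mul_sum, ← smul_eq_mul ((Finset.Ioo (-(m : ℤ)) m).card), ← Finset.sum_const]
      refine Finset.sum_lt_sum_of_nonempty ⟨0, ?_⟩ fun s _ => hcon s
      rw [Finset.mem_Ioo]
      omega
    rw [← h1, Int.card_Ioo] at h2
    have h3 : ((m : ℤ) - -(m : ℤ) - 1).toNat ≤ 2 * m := by omega
    have h4 := Nat.mul_le_mul_right U.card h3
    omega
  obtain ⟨s, hs⟩ := hex
  refine ⟨(U.filter fun t => t.1 - t.2 = s).card, ?_, ?_, ?_⟩
  · calc (TT S τ).card ≤ 2 * U.card := hUcard
      _ ≤ 2 * (2 * m * (U.filter fun t => t.1 - t.2 = s).card) := Nat.mul_le_mul_left _ hs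
      _ = _ := by ring
  · have h1 : (U.filter fun t => t.1 - t.2 = s).card ≤ S.card := by
      refine Finset.card_le_card_of_injOn (fun t => t.1) (fun t ht => ?_) ?_
      · have h2 := (Finset.mem_filter.1 (Finset.mem_coe.1 ht)).1
        rw [hU, Finset.mem_filter] at h2
        exact (mem_TT.1 h2.1).1
      · intro t ht t' ht' h
        have h2 := (Finset.mem_filter.1 (Finset.mem_coe.1 ht)).2
        have h3 := (Finset.mem_filter.1 (Finset.mem_coe.1 ht')).2
        simp only at h
        exact Prod.ext h (by omega)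
    have h2 := H.hn
    omega
  · have h1 : (U.filter fun t => t.1 - t.2 = s).card =
        ((U.filter fun t => t.1 - t.2 = s).image fun t => t.1).card := by
      rw [Finset.card_image_of_injOn]
      intro t ht t' ht' h
      have h2 := (Finset.mem_filter.1 (Finset.mem_coe.1 ht)).2
      have h3 := (Finset.mem_filter.1 (Finset.mem_coe.1 ht')).2
      simp only at h
      exact Prod.ext h (by omega)
    rw [h1]
    refine main_line H he hei hes hK0 P hsound hno s _ ?_
    intro i hi
    obtain ⟨t, ht, rfl⟩ := Finset.mem_image.1 hi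
    obtain ⟨h2, h3⟩ := Finset.mem_filter.1 ht
    rw [hU, Finset.mem_filter] at h2
    have h4 : (t.1, t.1 - s) = t := Prod.ext rfl (by simp only; omega)
    rw [h4]
    exact h2

end

end Pool.Agent.J6H11.Sk3
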