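import Pool.Agent.J6H11.Sk3.Num

/-!
# The main theorem
-/

set_option autoImplicit false

namespace Pool.Agent.J6H11.Sk3

open Finset

section

variable {n N K m d p q : ℕ} {S : Finset ℤ} {τ : ℤ}

theorem bits_nonneg (K p N : ℕ) (x : Fin n → ℤ) (P : Prog n q) : 0 ≤ P.bits K p N x := by
  rw [P.bits_eq]
  have h1 : (1 : ℝ) ≤ P.vals K p N x := by exact_mod_cast P.vals_pos K p N x
  have h2 : 0 ≤ Real.logb 2 (P.vals K p N x) := Real.logb_nonneg (by norm_num) h1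
  positivity

theorem cost_nonneg (K p N : ℕ) (x : Fin n → ℤ) (P : Prog n q) : 0 ≤ P.cost K p N x := by
  unfold Prog.cost
  have := bits_nonneg K p N x P
  positivity

/-- one program which never overlooks a solution -/
theorem cost_one (H : Setup n N K m d p S τ) {e : Fin n → Fin 4 × ℤ}
    (he : ∀ i, e i ∈ WW m d S τ) (hei : Function.Injective e)
    (hes : ∀ v ∈ WW m d S τ, ∃ i, e i = v) {K0 : ℕ} (hK0 : K0 ≤ K) {ε : ℝ}
    (hn1 : 1 ≤ n) (hT1 : 3 * (n : ℝ) ^ (2 - ε) ≤ (TT S τ).card)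
    (hT2 : 4 * m * (((n : ℝ) ^ (1 - ε) + 1) * Real.logb 2 (n + 1)) ≤ (TT S τ).card)
    [Fact q.Prime] (P : Prog n q) (hsound : ∀ x, Valid N x → Solvable x → P.eval K0 p x = true)
    (hno : P.eval K0 p (X0 K m p e) = false) :
    (n : ℝ) ^ (2 - ε) ≤ P.cost K0 p N (X0 K m p e) := by
  have hn0 : (0 : ℝ) < n := by exact_mod_cast hn1
  have hb0 := bits_nonneg K0 p N (X0 K m p e) P
  have hpow : 0 ≤ (n : ℝ) ^ (2 - ε) := by positivity
  unfold Prog.cost
  rcases main_one H he hei hes hK0 P hsound hno with h | ⟨k, hk1, hk2, hk3⟩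
  · have h1 : ((TT S τ).card : ℝ) ≤ 2 * ((P.triples K0 p (X0 K m p e) : ℝ) +
        n * P.reads K0 p (X0 K m p e)) := by exact_mod_cast h
    have h2 : 0 ≤ (n : ℝ) * P.bits K0 p N (X0 K m p e) := by positivity
    rw [mul_add]
    linarith
  · have hm0 : (0 : ℝ) < m := by exact_mod_cast H.hm1
    have hlg1 : 1 ≤ Real.logb 2 ((n : ℝ) + 1) := by
      rw [Real.le_logb_iff_rpow_le (by norm_num) (by positivity), Real.rpow_one]
      have : (1 : ℝ) ≤ n := by exact_mod_cast hn1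
      linarith
    have h1 : ((n : ℝ) ^ (1 - ε) + 1) * Real.logb 2 (n + 1) ≤ k := by
      have h2 : ((TT S τ).card : ℝ) ≤ 4 * m * k := by exact_mod_cast hk1
      have h3 := hT2.trans h2
      exact le_of_mul_le_mul_left h3 (by positivity)
    obtain ⟨w, hw⟩ : ∃ w : ℕ, w = deg q (fun c => c.1) (P.pars K0 p (X0 K m p e)) := ⟨_, rfl⟩
    obtain ⟨V, hV⟩ : ∃ V : ℕ, V = P.vals K0 p N (X0 K m p e) := ⟨_, rfl⟩
    rw [← hw, ← hV] at hk3
    have hV1 : 1 ≤ V := by rw [hV]; exact P.vals_pos _ _ _ _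
    have hV1' : (1 : ℝ) ≤ V := by exact_mod_cast hV1
    have hlV : 0 ≤ Real.logb 2 (V : ℝ) := Real.logb_nonneg (by norm_num) hV1'
    have h2 : (2 : ℝ) ^ k ≤ ((k : ℝ) + 1) ^ (w + 1) * V := by exact_mod_cast hk3
    have h3 : (k : ℝ) ≤ (w + 1) * Real.logb 2 ((k : ℝ) + 1) + Real.logb 2 V := by
      have h4 := Real.logb_le_logb_of_le (by norm_num : (1 : ℝ) < 2) (by positivity) h2
      rw [Real.logb_pow, Real.logb_self_eq_one (by norm_num), mul_one,
        Real.logb_mul (by positivity) (by positivity), Real.logb_pow] at h4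
      push_cast at h4
      exact h4
    have h4 : Real.logb 2 ((k : ℝ) + 1) ≤ Real.logb 2 ((n : ℝ) + 1) := by
      refine Real.logb_le_logb_of_le (by norm_num) (by positivity) ?_
      have : (k : ℝ) ≤ n := by exact_mod_cast hk2
      linarith
    have h5 : P.bits K0 p N (X0 K m p e) = w + Real.logb 2 V := by
      rw [P.bits_eq, hw, hV]
      rfl
    have h6 : (k : ℝ) ≤ (P.bits K0 p N (X0 K m p e) + 1) * Real.logb 2 ((n : ℝ) + 1) := by
      rw [h5]
      have h7 : ((w : ℝ) + 1) * Real.logb 2 ((k : ℝ) + 1) ≤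
          ((w : ℝ) + 1) * Real.logb 2 ((n : ℝ) + 1) :=
        mul_le_mul_of_nonneg_left h4 (by positivity)
      nlinarith
    have h7 : (n : ℝ) ^ (1 - ε) ≤ P.bits K0 p N (X0 K m p e) := by
      have h8 := h1.trans h6
      have h9 := le_of_mul_le_mul_right h8 (by linarith : 0 < Real.logb 2 ((n : ℝ) + 1))
      linarith
    have h8 : (n : ℝ) ^ (2 - ε) = n * (n : ℝ) ^ (1 - ε) := by
      rw [show (2 : ℝ) - ε = 1 + (1 - ε) by ring, Real.rpow_add hn0, Real.rpow_one]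
    rw [h8]
    have h9 : (n : ℝ) * (n : ℝ) ^ (1 - ε) ≤ n * P.bits K0 p N (X0 K m p e) :=
      mul_le_mul_of_nonneg_left h7 hn0.le
    have h10 : (0 : ℝ) ≤ P.triples K0 p (X0 K m p e) := Nat.cast_nonneg _
    have h11 : (0 : ℝ) ≤ n * P.reads K0 p (X0 K m p e) := by positivity
    rw [mul_add]
    linarith

open Classical in
/-- Programs without sketches: few possible solutions matter. -/
theorem diff_le (H : Setup n N K m d p S τ) {e : Fin n → Fin 4 × ℤ}
    (he : ∀ i, e i ∈ WW m d S τ) (hei : Function.Injective e) {K0 : ℕ} (hK0 : K0 ≤ K)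
    (hq : 2 ≤ q) (P : Prog n q) (hb : P.bits K0 p N (X0 K m p e) = 0) :
    (∑ t ∈ TT S τ, (if P.eval K0 p
      (XX K m p e (fun i => if i = t.1 then 1 else 0) (t.1 - t.2)) ≠ P.eval K0 p (X0 K m p e)
      then (1 : ℝ) else 0)) ≤ P.cost K0 p N (X0 K m p e) := by
  have h1 : (∑ t ∈ TT S τ, (if P.eval K0 p
      (XX K m p e (fun i => if i = t.1 then 1 else 0) (t.1 - t.2)) ≠ P.eval K0 p (X0 K m p e)
      then (1 : ℝ) else 0)) ≤ ∑ t ∈ TT S τ, (if Tch K m p K0 e P t then (1 : ℝ) else 0) := by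
    refine Finset.sum_le_sum fun t ht => ?_
    by_cases h2 : Tch K m p K0 e P t
    · rw [if_pos h2]
      split_ifs <;> norm_num
    · rw [if_neg (by rw [not_not]; exact untouched H he hei hK0 hq P hb ht h2), if_neg h2]
  have h2 : ∑ t ∈ TT S τ, (if Tch K m p K0 e P t then (1 : ℝ) else 0) =
      ((TT S τ).filter (Tch K m p K0 e P)).card := by
    rw [Finset.sum_boole]
  have h3 := card_tch H e K0 P
  have h4 : (((TT S τ).filter (Tch K m p K0 e P)).card : ℝ) ≤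
      P.triples K0 p (X0 K m p e) + n * P.reads K0 p (X0 K m p e) := by exact_mod_cast h3
  unfold Prog.cost
  rw [hb, add_zero]
  linarith

end

open Classical in
theorem main1 (ε : ℝ) (hε : 0 < ε) (hε1 : ε ≤ 1) : ∃ δ : ℝ, 0 < δ ∧ ∃ n₀ : ℕ,
    ∀ n N K p q : ℕ, n₀ ≤ n → (K : ℝ) ≤ (n : ℝ) ^ δ → 1 ≤ p → (p : ℝ) * (n : ℝ) ^ (1 + ε) ≤ N →
    q.Prime →
    1 ≤ n ∧ ∃ X : Fin n → ℤ, Valid N X ∧ ¬ Solvable X ∧
      ∀ (Ω : Type) [Fintype Ω] (μ : Ω → ℝ), (∀ ω, 0 ≤ μ ω) → ∑ ω, μ ω = 1 → ∀ P : Ω → Prog n q,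
      ((∀ ω, μ ω ≠ 0 → ∀ x, Valid N x → Solvable x → (P ω).eval K p x = true) →
        (n : ℝ) ^ (2 - ε) * ∑ ω, μ ω * (if (P ω).eval K p X = false then 1 else 0) ≤
          ∑ ω, μ ω * (P ω).cost K p N X) ∧
      ((∀ x, Valid N x →
          2 / 3 ≤ ∑ ω, μ ω * (if (P ω).eval K p x = decide (Solvable x) then 1 else 0)) →
        (∀ ω, (P ω).bits K p N X = 0) →
        (n : ℝ) ^ (2 - ε) ≤ ∑ ω, μ ω * (P ω).cost K p N X) := by
  obtain ⟨δ, hδ, n₀, h⟩ := params ε hε hε1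
  refine ⟨δ, hδ, n₀, fun n N K0 p q hn hK0 hp hN hq => ?_⟩
  have : Fact q.Prime := ⟨hq⟩
  obtain ⟨K, m, d, S, τ, H, hKK, hn1, hT1, hT2⟩ := h n N K0 p hn hK0 hp hN
  refine ⟨hn1, ?_⟩
  have hcard : (WW m d S τ).card = n := by rw [card_WW]; exact H.hn
  let E := (Finset.equivFinOfCardEq hcard).symm
  let e : Fin n → Fin 4 × ℤ := fun i => (E i).1
  have he : ∀ i, e i ∈ WW m d S τ := fun i => (E i).2
  have hei : Function.Injective e := fun i j hij => E.injective (Subtype.ext hij)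
  have hes : ∀ v ∈ WW m d S τ, ∃ i, e i = v := fun v hv => by
    obtain ⟨i, hi⟩ := E.surjective ⟨v, hv⟩
    exact ⟨i, by simp only [e, hi]⟩
  refine ⟨X0 K m p e, X0_valid H he hei, X0_not H he, ?_⟩
  intro Ω _ μ h0 h1 P
  constructor
  · intro hsound
    rw [Finset.mul_sum]
    refine Finset.sum_le_sum fun ω _ => ?_
    by_cases hμ : μ ω = 0
    · simp [hμ]
    by_cases hno : (P ω).eval K0 p (X0 K m p e) = false
    · rw [if_pos hno, mul_one, mul_comm]
      exact mul_le_mul_of_nonneg_left (cost_one H he hei hes hKK hn1 hT1 hT2 (P ω) (hsound ω hμ) hno)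
        (h0 ω)
    · rw [if_neg hno, mul_zero, mul_zero]
      exact mul_nonneg (h0 ω) (cost_nonneg K0 p N _ _)
  · intro hcor hbits
    -- the number of possible solutions times the probability
    have hX := hcor _ (X0_valid H he hei)
    have hX0 : decide (Solvable (X0 K m p e)) = false := decide_eq_false (X0_not H he)
    rw [hX0] at hX
    have key : ∀ t ∈ TT S τ, 1 / 3 ≤ ∑ ω, μ ω * (if (P ω).eval K0 p
        (XX K m p e (fun i => if i = t.1 then 1 else 0) (t.1 - t.2)) ≠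
          (P ω).eval K0 p (X0 K m p e) then (1 : ℝ) else 0) := by
      intro t ht
      have ht' := mem_TT.1 ht
      have hv : Valid N (XX K m p e (fun i => if i = t.1 then 1 else 0) (t.1 - t.2)) :=
        XX_valid H he hei (fun i => by split_ifs <;> simp) _
      have e1 : t.1 - (t.1 - t.2) = t.2 := by ring
      have hs : Solvable (XX K m p e (fun i => if i = t.1 then 1 else 0) (t.1 - t.2)) :=
        XX_solvable hes (i := t.1) (by simp) ht'.1 (by rw [e1]; exact ht'.2.1)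
          (by rw [e1]; exact ht'.2.2)
      have h2 := hcor _ hv
      rw [decide_eq_true hs] at h2
      have h3 : ∀ ω, μ ω * (if (P ω).eval K0 p
          (XX K m p e (fun i => if i = t.1 then 1 else 0) (t.1 - t.2)) = true
            then (1 : ℝ) else 0) + μ ω * (if (P ω).eval K0 p (X0 K m p e) = false
            then (1 : ℝ) else 0) ≤ μ ω + μ ω * (if (P ω).eval K0 p
          (XX K m p e (fun i => if i = t.1 then 1 else 0) (t.1 - t.2)) ≠
          (P ω).eval K0 p (X0 K m p e) then (1 : ℝ) else 0) := by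
        intro ω
        have h4 := h0 ω
        cases h5 : (P ω).eval K0 p
          (XX K m p e (fun i => if i = t.1 then 1 else 0) (t.1 - t.2)) <;>
        cases h6 : (P ω).eval K0 p (X0 K m p e) <;> simp <;> linarith
      have h4 := Finset.sum_le_sum fun ω (_ : ω ∈ (Finset.univ : Finset Ω)) => h3 ω
      rw [Finset.sum_add_distrib, Finset.sum_add_distrib, h1] at h4
      linarith
    have h5 : ((TT S τ).card : ℝ) * (1 / 3) ≤ ∑ t ∈ TT S τ, ∑ ω, μ ω * (if (P ω).eval K0 p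
        (XX K m p e (fun i => if i = t.1 then 1 else 0) (t.1 - t.2)) ≠
          (P ω).eval K0 p (X0 K m p e) then (1 : ℝ) else 0) := by
      rw [← nsmul_eq_mul]
      exact Finset.card_nsmul_le_sum _ _ _ key
    rw [Finset.sum_comm] at h5
    have h6 : ∑ ω, ∑ t ∈ TT S τ, μ ω * (if (P ω).eval K0 p
        (XX K m p e (fun i => if i = t.1 then 1 else 0) (t.1 - t.2)) ≠
          (P ω).eval K0 p (X0 K m p e) then (1 : ℝ) else 0) ≤
        ∑ ω, μ ω * (P ω).cost K0 p N (X0 K m p e) := by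
      refine Finset.sum_le_sum fun ω _ => ?_
      rw [← Finset.mul_sum]
      exact mul_le_mul_of_nonneg_left (diff_le H he hei hKK hq.two_le (P ω) (hbits ω)) (h0 ω)
    linarith

open Classical in
theorem main (ε : ℝ) (hε : 0 < ε) : ∃ δ : ℝ, 0 < δ ∧ ∃ n₀ : ℕ,
    ∀ n N K p q : ℕ, n₀ ≤ n → (K : ℝ) ≤ (n : ℝ) ^ δ → 1 ≤ p → (p : ℝ) * (n : ℝ) ^ (1 + ε) ≤ N →
    q.Prime →
    ∃ X : Fin n → ℤ, Valid N X ∧ ¬ Solvable X ∧
      ∀ (Ω : Type) [Fintype Ω] (μ : Ω → ℝ), (∀ ω, 0 ≤ μ ω) → ∑ ω, μ ω = 1 → ∀ P : Ω → Prog n q,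
      ((∀ ω, μ ω ≠ 0 → ∀ x, Valid N x → Solvable x → (P ω).eval K p x = true) →
        (n : ℝ) ^ (2 - ε) * ∑ ω, μ ω * (if (P ω).eval K p X = false then 1 else 0) ≤
          ∑ ω, μ ω * (P ω).cost K p N X) ∧
      ((∀ x, Valid N x →
          2 / 3 ≤ ∑ ω, μ ω * (if (P ω).eval K p x = decide (Solvable x) then 1 else 0)) →
        (∀ ω, (P ω).bits K p N X = 0) →
        (n : ℝ) ^ (2 - ε) ≤ ∑ ω, μ ω * (P ω).cost K p N X) := by
  obtain ⟨δ, hδ, n₀, h⟩ := main1 (min ε 1) (lt_min hε one_pos) (min_le_right _ _)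
  refine ⟨δ, hδ, max n₀ 1, fun n N K p q hn hK hp hN hq => ?_⟩
  have hn0 : n₀ ≤ n := (le_max_left _ _).trans hn
  have hn1 : (1 : ℝ) ≤ n := by exact_mod_cast (le_max_right _ _).trans hn
  have h1 : (n : ℝ) ^ (1 + min ε 1) ≤ (n : ℝ) ^ (1 + ε) :=
    Real.rpow_le_rpow_of_exponent_le hn1 (by linarith [min_le_left ε 1])
  have h2 : (n : ℝ) ^ (2 - ε) ≤ (n : ℝ) ^ (2 - min ε 1) :=
    Real.rpow_le_rpow_of_exponent_le hn1 (by linarith [min_le_left ε 1])
  obtain ⟨-, X, hX1, hX2, h3⟩ := h n N K p q hn0 hK hp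
    ((mul_le_mul_of_nonneg_left h1 (Nat.cast_nonneg _)).trans hN) hq
  refine ⟨X, hX1, hX2, fun Ω _ μ h0 hs P => ?_⟩
  obtain ⟨h4, h5⟩ := h3 Ω μ h0 hs P
  refine ⟨fun h6 => ?_, fun h6 h7 => h2.trans (h5 h6 h7)⟩
  refine le_trans (mul_le_mul_of_nonneg_right h2 ?_) (h4 h6)
  refine Finset.sum_nonneg fun ω _ => mul_nonneg (h0 ω) ?_
  split_ifs <;> norm_num

end Pool.Agent.J6H11.Sk3
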