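import Pool.Agent.J6H11.Sk3.Line

/-!
# The choice of the parameters
-/

set_option autoImplicit false

namespace Pool.Agent.J6H11.Sk3

open Finset

theorem exists_tau {m : ℕ} {S : Finset ℤ} (hm1 : 1 ≤ m) (hm : ∀ x ∈ S, 0 ≤ x ∧ x < m) :
    ∃ τ : ℤ, |τ| ≤ 2 * m ∧ S.card ^ 3 ≤ 3 * m * (TT S τ).card := by
  by_contra hcon
  push Not at hcon
  let U : Finset (ℤ × ℤ × ℤ) := S ×ˢ (S ×ˢ S)
  have hU : U.card = S.card ^ 3 := by
    simp only [U, Finset.card_product]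
    ring
  have hmaps : ∀ t ∈ U, t.1 + t.2.1 - t.2.2 ∈ Finset.Ioo (-(m : ℤ)) (2 * m) := by
    intro t ht
    simp only [U, Finset.mem_product] at ht
    have h1 := hm _ ht.1
    have h2 := hm _ ht.2.1
    have h3 := hm _ ht.2.2
    rw [Finset.mem_Ioo]
    omega
  have hfib : ∀ τ : ℤ, (U.filter fun t => t.1 + t.2.1 - t.2.2 = τ).card = (TT S τ).card := by
    intro τ
    refine Finset.card_bij (fun t _ => (t.1, t.2.1)) ?_ ?_ ?_
    · intro t ht
      simp only [U, Finset.mem_filter, Finset.mem_product] at ht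
      rw [mem_TT]
      refine ⟨ht.1.1, ht.1.2.1, ?_⟩
      have : t.1 + t.2.1 - τ = t.2.2 := by omega
      simp only
      rw [this]
      exact ht.1.2.2
    · intro t ht t' ht' h
      simp only [U, Finset.mem_filter, Finset.mem_product] at ht ht'
      simp only [Prod.mk.injEq] at h
      refine Prod.ext h.1 (Prod.ext h.2 ?_)
      omega
    · intro t ht
      rw [mem_TT] at ht
      refine ⟨(t.1, t.2, t.1 + t.2 - τ), ?_, rfl⟩
      simp only [U, Finset.mem_filter, Finset.mem_product]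
      exact ⟨⟨ht.1, ht.2.1, ht.2.2⟩, by ring⟩
  have h1 : U.card = ∑ τ ∈ Finset.Ioo (-(m : ℤ)) (2 * m),
      (U.filter fun t => t.1 + t.2.1 - t.2.2 = τ).card :=
    Finset.card_eq_sum_card_fiberwise hmaps
  have h2 : 3 * m * ∑ τ ∈ Finset.Ioo (-(m : ℤ)) (2 * m),
      (U.filter fun t => t.1 + t.2.1 - t.2.2 = τ).card <
      (Finset.Ioo (-(m : ℤ)) (2 * m)).card * U.card := by
    rw [Finset.mul_sum, ← smul_eq_mul ((Finset.Ioo (-(m : ℤ)) (2 * m)).card), ← Finset.sum_const]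
    refine Finset.sum_lt_sum_of_nonempty ⟨0, ?_⟩ fun τ hτ => ?_
    · rw [Finset.mem_Ioo]
      omega
    · rw [hfib, hU]
      rw [Finset.mem_Ioo] at hτ
      exact hcon τ (by rw [abs_le]; omega)
  rw [← h1, Int.card_Ioo] at h2
  have h3 : ((2 * m : ℤ) - -(m : ℤ) - 1).toNat ≤ 3 * m := by omega
  have h4 := Nat.mul_le_mul_right U.card h3
  omega

/-- the parameters -/
theorem params (ε : ℝ) (hε : 0 < ε) (hε1 : ε ≤ 1) : ∃ δ : ℝ, 0 < δ ∧ ∃ n₀ : ℕ,
    ∀ n N K0 p : ℕ, n₀ ≤ n → (K0 : ℝ) ≤ (n : ℝ) ^ δ → 1 ≤ p → (p : ℝ) * (n : ℝ) ^ (1 + ε) ≤ N →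
    ∃ (K m d : ℕ) (S : Finset ℤ) (τ : ℤ), Setup n N K m d p S τ ∧ K0 ≤ K ∧ 1 ≤ n ∧
      3 * (n : ℝ) ^ (2 - ε) ≤ (TT S τ).card ∧
      4 * m * (((n : ℝ) ^ (1 - ε) + 1) * Real.logb 2 (n + 1)) ≤ (TT S τ).card := by
  obtain ⟨ε1, hε1'⟩ : ∃ ε1, ε1 = ε / 16 := ⟨_, rfl⟩
  have he1 : 0 < ε1 := by rw [hε1']; positivity
  obtain ⟨r, hr⟩ : ∃ r : ℕ, r = ⌈2 / ε1⌉₊ := ⟨_, rfl⟩
  have hr1 : 1 ≤ r := by
    rw [hr]
    exact Nat.ceil_pos.2 (by positivity)
  have hr0 : (0 : ℝ) < r := by exact_mod_cast hr1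
  have hr2 : 2 / (r : ℝ) ≤ ε1 := by
    have h1 : 2 / ε1 ≤ r := by rw [hr]; exact Nat.le_ceil _
    rw [div_le_iff₀ he1] at h1
    rw [div_le_iff₀ hr0]
    linarith
  obtain ⟨δ, hδ⟩ : ∃ δ, δ = ε1 / (4 * r) := ⟨_, rfl⟩
  have hδ0 : 0 < δ := by rw [hδ]; positivity
  have hδr : r * δ ≤ ε1 := by
    rw [hδ]
    have : (r : ℝ) * (ε1 / (4 * r)) = ε1 / 4 := by field_simp
    rw [this]
    linarith
  have hδ4 : 4 * δ ≤ ε1 := by
    rw [hδ]
    have h1 : 4 * (ε1 / (4 * r)) = ε1 / r := by field_simp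
    rw [h1]
    exact div_le_self he1.le (by exact_mod_cast hr1)
  refine ⟨δ, hδ0, ?_⟩
  -- large n
  have hev1 : ∀ᶠ n : ℕ in Filter.atTop, (4 : ℝ) ^ r + 4 * r + 9 ≤ (n : ℝ) ^ ε1 :=
    ((tendsto_rpow_atTop he1).comp tendsto_natCast_atTop_atTop).eventually_ge_atTop _
  have hev2 : ∀ᶠ n : ℕ in Filter.atTop, 24 * Real.logb 2 (n + 1) ≤ ((n : ℝ) ^ ε1) ^ 6 := by
    have h1 : (fun x : ℝ => Real.log x) =o[Filter.atTop] fun x => x ^ (6 * ε1) :=
      isLittleO_log_rpow_atTop (by positivity)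
    have h2 := h1.def (show (0 : ℝ) < Real.log 2 / 48 by positivity)
    have h3 : Filter.Tendsto (fun n : ℕ => (n : ℝ)) Filter.atTop Filter.atTop :=
      tendsto_natCast_atTop_atTop
    have h4 := h3.eventually h2
    filter_upwards [h4, Filter.eventually_ge_atTop 2] with n hn hn2
    have hn2' : (2 : ℝ) ≤ n := by exact_mod_cast hn2
    have h5 : Real.log n ≤ Real.log 2 / 48 * (n : ℝ) ^ (6 * ε1) := by
      rw [Real.norm_of_nonneg (Real.log_nonneg (by linarith)),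
        Real.norm_of_nonneg (by positivity)] at hn
      exact hn
    have h6 : Real.log (n + 1) ≤ 2 * Real.log n := by
      have h7 : (2 : ℝ) * Real.log n = Real.log ((n : ℝ) ^ 2) := by
        rw [Real.log_pow]; norm_num
      rw [h7]
      exact Real.log_le_log (by linarith) (by nlinarith)
    have h7 : ((n : ℝ) ^ ε1) ^ 6 = (n : ℝ) ^ (6 * ε1) := by
      rw [← Real.rpow_natCast, ← Real.rpow_mul (by positivity)]
      congr 1
      push_cast
      ring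
    have hl2 : 0 < Real.log 2 := Real.log_pos (by norm_num)
    rw [h7, Real.logb, mul_div_assoc', div_le_iff₀ hl2]
    calc 24 * Real.log (n + 1) ≤ 48 * Real.log n := by linarith
      _ ≤ 48 * (Real.log 2 / 48 * (n : ℝ) ^ (6 * ε1)) := by linarith
      _ = (n : ℝ) ^ (6 * ε1) * Real.log 2 := by ring
  obtain ⟨n₀, hn₀⟩ := Filter.eventually_atTop.1 (hev1.and (hev2.and (Filter.eventually_ge_atTop 4)))
  refine ⟨n₀, fun n N K0 p hn hK0 hp hN => ?_⟩
  obtain ⟨hx, hlg, hn4⟩ := hn₀ n hn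
  obtain ⟨x, hxd⟩ : ∃ x : ℝ, x = (n : ℝ) ^ ε1 := ⟨_, rfl⟩
  rw [← hxd] at hx hlg
  have hn4' : (4 : ℝ) ≤ n := by exact_mod_cast hn4
  have hn0 : (0 : ℝ) < n := by linarith
  have hn1 : (1 : ℝ) ≤ n := by linarith
  have h4r : (0 : ℝ) < 4 ^ r := by positivity
  have hx9 : 9 ≤ x := by linarith
  have hx4r : 4 * r ≤ x := by linarith
  have hxr : (4 : ℝ) ^ r ≤ x := by linarith
  have hx0 : 0 < x := by linarith
  have hx1 : 1 ≤ x := by linarith
  -- powers of n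
  have hp16 : (n : ℝ) ^ ε = x ^ 16 := by
    rw [hxd, ← Real.rpow_natCast, ← Real.rpow_mul hn0.le, hε1']
    congr 1
    push_cast
    ring
  have e1 : (n : ℝ) ^ (1 + ε) = n * x ^ 16 := by
    rw [Real.rpow_add hn0, Real.rpow_one, hp16]
  have e2 : (n : ℝ) ^ (2 - ε) = n ^ 2 / x ^ 16 := by
    rw [Real.rpow_sub hn0, hp16]
    norm_num
  have e3 : (n : ℝ) ^ (1 - ε) = n / x ^ 16 := by
    rw [Real.rpow_sub hn0, hp16, Real.rpow_one]
  have hx16 : x ^ 16 ≤ n := by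
    rw [← hp16]
    calc (n : ℝ) ^ ε ≤ (n : ℝ) ^ (1 : ℝ) := Real.rpow_le_rpow_of_exponent_le hn1 hε1
      _ = n := Real.rpow_one _
  obtain ⟨y, hyd⟩ : ∃ y : ℝ, y = (n : ℝ) ^ δ := ⟨_, rfl⟩
  obtain ⟨z, hzd⟩ : ∃ z : ℝ, z = (n : ℝ) ^ (1 / (r : ℝ)) := ⟨_, rfl⟩
  have hy1 : 1 ≤ y := by rw [hyd]; exact Real.one_le_rpow hn1 hδ0.le
  have hz1 : 1 ≤ z := by rw [hzd]; exact Real.one_le_rpow hn1 (by positivity)
  have hy4 : y ^ 4 ≤ x := by
    rw [hyd, hxd, ← Real.rpow_natCast, ← Real.rpow_mul hn0.le]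
    refine Real.rpow_le_rpow_of_exponent_le hn1 ?_
    push_cast
    linarith
  have hyr : y ^ r ≤ x := by
    rw [hyd, hxd, ← Real.rpow_natCast, ← Real.rpow_mul hn0.le]
    exact Real.rpow_le_rpow_of_exponent_le hn1 (by linarith)
  have hzr : z ^ r = n := by
    rw [hzd, ← Real.rpow_natCast, ← Real.rpow_mul hn0.le, one_div, inv_mul_cancel₀ hr0.ne',
      Real.rpow_one]
  have hz2 : z ^ 2 ≤ x := by
    rw [hzd, hxd, ← Real.rpow_natCast, ← Real.rpow_mul hn0.le]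
    refine Real.rpow_le_rpow_of_exponent_le hn1 ?_
    push_cast
    calc 1 / (r : ℝ) * 2 = 2 / r := by ring
      _ ≤ ε1 := hr2
  -- the base
  obtain ⟨d0, hd0⟩ : ∃ d0 : ℕ, d0 = ⌈z⌉₊ := ⟨_, rfl⟩
  have hd1 : 1 ≤ d0 := by rw [hd0]; exact Nat.ceil_pos.2 (by linarith)
  have hdz : z ≤ d0 := by rw [hd0]; exact Nat.le_ceil z
  have hdz2 : (d0 : ℝ) ≤ 2 * z := by
    have h1 : (d0 : ℝ) < z + 1 := by rw [hd0]; exact Nat.ceil_lt_add_one (by linarith)
    linarith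
  obtain ⟨K, hKd⟩ : ∃ K : ℕ, K = max K0 2 := ⟨_, rfl⟩
  have hK2 : 2 ≤ K := by rw [hKd]; exact le_max_right _ _
  have hKy : (K : ℝ) ≤ 2 * y := by
    rw [hKd]
    push_cast
    refine max_le ?_ (by linarith)
    rw [hyd]
    have : (0 : ℝ) < (n : ℝ) ^ δ := by positivity
    linarith
  obtain ⟨S0, hS0, hS0c, hS0f⟩ := exists_free K d0 r (by omega) hd1 hr1
  obtain ⟨m, hmd⟩ : ∃ m : ℕ, m = (K * d0) ^ r := ⟨_, rfl⟩
  rw [← hmd] at hS0
  have hd0r : (n : ℝ) ≤ (d0 : ℝ) ^ r := by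
    rw [← hzr]
    exact pow_le_pow_left₀ (by linarith) hdz r
  have hnm : n ≤ m := by
    have h1 : n ≤ d0 ^ r := by exact_mod_cast hd0r
    have h2 : d0 ^ r ≤ (K * d0) ^ r := Nat.pow_le_pow_left (Nat.le_mul_of_pos_left d0 (by omega)) r
    rw [hmd]
    exact h1.trans h2
  have hmx : (m : ℝ) ≤ n * x ^ 2 := by
    rw [hmd]
    push_cast
    calc ((K : ℝ) * d0) ^ r ≤ (2 * y * (2 * z)) ^ r := by
          refine pow_le_pow_left₀ (by positivity) ?_ r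
          exact mul_le_mul hKy hdz2 (by positivity) (by positivity)
      _ = 4 ^ r * y ^ r * z ^ r := by
          rw [← mul_pow, ← mul_pow]
          congr 1
          ring
      _ ≤ x * x * n := by
          rw [hzr]
          have : (4 : ℝ) ^ r * y ^ r ≤ x * x := mul_le_mul hxr hyr (by positivity) hx0.le
          exact mul_le_mul_of_nonneg_right this hn0.le
      _ = n * x ^ 2 := by ring
  -- the size of S0
  have hS0x : (n : ℝ) / x ^ 2 ≤ S0.card := by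
    have h1 : (n : ℝ) ≤ S0.card * (r * d0 ^ 2) := by
      have h2 : ((d0 : ℝ)) ^ r ≤ S0.card * (r * d0 ^ 2) := by exact_mod_cast hS0c
      linarith
    have h2 : (r : ℝ) * d0 ^ 2 ≤ x ^ 2 := by
      calc (r : ℝ) * d0 ^ 2 ≤ r * (2 * z) ^ 2 := by
            refine mul_le_mul_of_nonneg_left ?_ hr0.le
            exact pow_le_pow_left₀ (by positivity) hdz2 2
        _ = 4 * r * z ^ 2 := by ring
        _ ≤ x * x := mul_le_mul hx4r hz2 (by positivity) hx0.le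
        _ = x ^ 2 := by ring
    rw [div_le_iff₀ (by positivity)]
    calc (n : ℝ) ≤ S0.card * (r * d0 ^ 2) := h1
      _ ≤ S0.card * x ^ 2 := mul_le_mul_of_nonneg_left h2 (Nat.cast_nonneg _)
  -- the subset
  obtain ⟨S, hSS0, hScard⟩ : ∃ S ⊆ S0, S.card = min S0.card (n / 3) :=
    Finset.exists_subset_card_eq (min_le_left _ _)
  have hSx : (n : ℝ) / x ^ 2 ≤ S.card := by
    rw [hScard]
    push_cast
    refine le_min hS0x ?_
    have h1 : (n : ℝ) / 6 ≤ ((n / 3 : ℕ) : ℝ) := by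
      have h2 : n ≤ 6 * (n / 3) := by omega
      have h3 : (n : ℝ) ≤ 6 * ((n / 3 : ℕ) : ℝ) := by exact_mod_cast h2
      linarith
    refine le_trans ?_ h1
    refine div_le_div_of_nonneg_left hn0.le (by norm_num) ?_
    nlinarith
  have hm1 : 1 ≤ m := by omega
  have hmS : ∀ x ∈ S, 0 ≤ x ∧ x < (m : ℤ) := fun x hx => hS0 x (hSS0 hx)
  obtain ⟨τ, hτ, hTT⟩ := exists_tau hm1 hmS
  have hT : (n : ℝ) ^ 2 / (3 * x ^ 8) ≤ (TT S τ).card := by
    have h1 : ((S.card : ℝ)) ^ 3 ≤ 3 * m * (TT S τ).card := by exact_mod_cast hTT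
    have h2 : ((n : ℝ) / x ^ 2) ^ 3 ≤ (S.card : ℝ) ^ 3 := pow_le_pow_left₀ (by positivity) hSx 3
    have h3 : (0 : ℝ) < m := by exact_mod_cast hm1
    have h4 : (3 : ℝ) * m * (TT S τ).card ≤ 3 * (n * x ^ 2) * (TT S τ).card := by
      refine mul_le_mul_of_nonneg_right ?_ (Nat.cast_nonneg _)
      linarith
    have h5 : ((n : ℝ) / x ^ 2) ^ 3 ≤ 3 * (n * x ^ 2) * (TT S τ).card := by linarith
    rw [div_le_iff₀ (by positivity)]
    rw [div_pow, div_le_iff₀ (by positivity)] at h5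
    have h6 : (n : ℝ) ^ 3 = n * n ^ 2 := by ring
    have h7 : 3 * ((n : ℝ) * x ^ 2) * ((TT S τ).card : ℝ) * (x ^ 2) ^ 3 =
        n * ((TT S τ).card * (3 * x ^ 8)) := by ring
    rw [h6, h7] at h5
    exact le_of_mul_le_mul_left h5 hn0
  have hx8 : 9 ≤ x ^ 8 := by
    calc (9 : ℝ) ≤ x := hx9
      _ = x ^ 1 := (pow_one x).symm
      _ ≤ x ^ 8 := pow_le_pow_right₀ hx1 (by norm_num)
  refine ⟨K, m, n - 3 * S.card, S, τ, ?_, ?_, by omega, ?_, ?_⟩
  · refine ⟨hK2, hp, hS0f.subset hSS0, hm1, hmS, hτ, by omega, ?_, ?_⟩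
    · have h1 : S.card ≤ n / 3 := by rw [hScard]; exact min_le_right _ _
      omega
    · have h1 : ((p * (2000 * (K ^ 4 * m)) : ℕ) : ℝ) ≤ N := by
        push_cast
        refine le_trans ?_ hN
        refine mul_le_mul_of_nonneg_left ?_ (Nat.cast_nonneg _)
        rw [e1]
        have h2 : (K : ℝ) ^ 4 ≤ 16 * x := by
          calc (K : ℝ) ^ 4 ≤ (2 * y) ^ 4 := pow_le_pow_left₀ (Nat.cast_nonneg _) hKy 4
            _ = 16 * y ^ 4 := by ring
            _ ≤ 16 * x := by linarith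
        have h3 : (K : ℝ) ^ 4 * m ≤ 16 * x * (n * x ^ 2) :=
          mul_le_mul h2 hmx (Nat.cast_nonneg _) (by positivity)
        have h4 : (32000 : ℝ) ≤ x ^ 13 := by
          calc (32000 : ℝ) ≤ 9 ^ 5 := by norm_num
            _ ≤ x ^ 5 := pow_le_pow_left₀ (by norm_num) hx9 5
            _ ≤ x ^ 13 := pow_le_pow_right₀ hx1 (by norm_num)
        calc 2000 * ((K : ℝ) ^ 4 * m) ≤ 2000 * (16 * x * (n * x ^ 2)) := by linarith
          _ = n * x ^ 3 * 32000 := by ring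
          _ ≤ n * x ^ 3 * x ^ 13 := mul_le_mul_of_nonneg_left h4 (by positivity)
          _ = n * x ^ 16 := by ring
      exact_mod_cast h1
  · rw [hKd]; exact le_max_left _ _
  · rw [e2]
    refine le_trans ?_ hT
    have h1 : (3 : ℝ) * (n ^ 2 / x ^ 16) = n ^ 2 * (9 / x ^ 8) / (3 * x ^ 8) := by
      field_simp
      norm_num
    rw [h1]
    refine div_le_div_of_nonneg_right ?_ (by positivity)
    have h2 : 9 / x ^ 8 ≤ 1 := by
      rw [div_le_one (by positivity)]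
      exact hx8
    nlinarith [sq_nonneg (n : ℝ)]
  · rw [e3]
    refine le_trans ?_ hT
    have hlg0 : 0 ≤ Real.logb 2 ((n : ℝ) + 1) := Real.logb_nonneg (by norm_num) (by linarith)
    have h1 : (n : ℝ) / x ^ 16 + 1 ≤ 2 * (n / x ^ 16) := by
      have : 1 ≤ (n : ℝ) / x ^ 16 := by
        rw [le_div_iff₀ (by positivity), one_mul]
        exact hx16
      linarith
    have h2 : ((n : ℝ) / x ^ 16 + 1) * Real.logb 2 (n + 1) ≤ 2 * (n / x ^ 16) * (x ^ 6 / 24) := by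
      refine mul_le_mul h1 ?_ hlg0 (by positivity)
      linarith
    have h3 : (4 : ℝ) * m ≤ 4 * (n * x ^ 2) := by linarith
    calc 4 * (m : ℝ) * (((n : ℝ) / x ^ 16 + 1) * Real.logb 2 (n + 1))
        ≤ 4 * (n * x ^ 2) * (2 * (n / x ^ 16) * (x ^ 6 / 24)) :=
          mul_le_mul h3 h2 (by positivity) (by positivity)
      _ = n ^ 2 / (3 * x ^ 8) := by
          field_simp
          ring

end Pool.Agent.J6H11.Sk3
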