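import Pool.Agent.J6H11.Sk3.Form

/-!
# The changed instances
-/

set_option autoImplicit false

namespace Pool.Agent.J6H11.Sk3

open Finset

/-- the changed numbers -/
def ys (K m : ℕ) (ε : ℤ → ℤ) (s : ℤ) (v : Fin 4 × ℤ) : ℤ := yy K m v + dl ε s v

theorem sign_add_mul {K : ℕ} {η Y : ℤ} (hη : |η| < 12 * K) (hY : Y ≠ 0) :
    SignType.sign (η + 12 * K * Y) = SignType.sign Y := by
  rw [abs_lt] at hη
  rcases lt_or_gt_of_ne hY with h | h
  · rw [sign_neg h, sign_neg]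
    nlinarith
  · rw [sign_pos h, sign_pos]
    nlinarith

theorem yy_three (K m : ℕ) (i j : ℤ) : yy K m (0, i) + yy K m (1, j) - yy K m (2, i + j) = 3 := by
  simp only [yy, hc, zc, Fin.isValue, Matrix.cons_val_zero, Matrix.cons_val_one, Matrix.cons_val]
  ring

theorem dl_zero (s : ℤ) (v : Fin 4 × ℤ) : dl (fun _ => 0) s v = 0 := by
  simp [dl]

theorem ys_zero (K m : ℕ) (s : ℤ) (v : Fin 4 × ℤ) : ys K m (fun _ => 0) s v = yy K m v := by
  simp [ys, dl_zero]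

theorem dl_three {K : ℕ} {S : Finset ℤ} (hK : 2 ≤ K) (hS : Free K S) {ε : ℤ → ℤ}
    (hε : ∀ i, |ε i| ≤ 1) (hεS : ∀ i, ε i = 1 → i ∈ S) (s i j : ℤ)
    (hne : ¬ (ε i = 1 ∧ j = i - s)) :
    0 < 3 + dl ε s (0, i) + dl ε s (1, j) - dl ε s (2, i + j) := by
  have h1 := abs_le.1 (hε i)
  have h2 := abs_le.1 (hε (j + s))
  have e1 : dl ε s (0, i) = -ε i := by simp [dl]
  have e2 : dl ε s (1, j) = -ε (j + s) := by simp [dl]
  have e3 : dl ε s (2, i + j) = if 2 ∣ i + j + s then ε ((i + j + s) / 2) else 0 := by simp [dl]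
  rw [e1, e2, e3]
  split_ifs with hd
  · obtain ⟨q, hq⟩ := hd
    rw [hq, Int.mul_ediv_cancel_left q two_ne_zero]
    have h3 := abs_le.1 (hε q)
    by_contra hcon
    have a1 : ε i = 1 := by omega
    have a2 : ε (j + s) = 1 := by omega
    have a3 : ε q = 1 := by omega
    have h4 := hS 1 1 le_rfl le_rfl (by exact_mod_cast hK) i (hεS i a1) (j + s) (hεS _ a2) q
      (hεS q a3) (by linear_combination hq)
    exact hne ⟨a1, by omega⟩
  · omega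

/-- The signs of the forms do not change, apart from the forms of the triples with `ε = 1`. -/
theorem sign_eq {K m d : ℕ} {S : Finset ℤ} {τ : ℤ} (hK : 2 ≤ K) (hS : Free K S)
    (hm : ∀ x ∈ S, 0 ≤ x ∧ x < m) (hτ : |τ| ≤ 2 * m) (hd : d ≤ m) {ε : ℤ → ℤ}
    (hε : ∀ i, |ε i| ≤ 1) (hεS : ∀ i, ε i = 1 → i ∈ S) (s : ℤ)
    {v1 v2 v3 : Fin 4 × ℤ} (h1 : v1 ∈ WW m d S τ) (h2 : v2 ∈ WW m d S τ) (h3 : v3 ∈ WW m d S τ)
    {α β γ : ℤ} (hα : |α| ≤ K) (hβ : |β| ≤ K) (hγ : |γ| ≤ K)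
    (hne : ∀ i, ε i = 1 → ({v1, v2, v3} : Finset (Fin 4 × ℤ)) ≠ {(0, i), (1, i - s), (2, i + (i - s))}) :
    SignType.sign (α * ys K m ε s v1 + β * ys K m ε s v2 + γ * ys K m ε s v3) =
      SignType.sign (α * yy K m v1 + β * yy K m v2 + γ * yy K m v3) := by
  rcases form_cases hK hm hτ hd h1 h2 h3 hα hβ hγ with ⟨Y, hY, h⟩ | ⟨hcs, hk, h⟩ |
    ⟨c, i, j, hc0, hi, hj, hij, hset, h⟩
  · obtain ⟨η, hη, e⟩ := h (dl ε s) (dl_abs hε s)
    obtain ⟨η', hη', e'⟩ := h (fun _ => 0) (fun _ => by simp)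
    simp only [add_zero] at e'
    unfold ys
    rw [e, e', sign_add_mul hη hY, sign_add_mul hη' hY]
  · have h4 := formal hS ε s h1 h2 h3 hα hβ hγ hcs hk
    congr 1
    unfold ys
    linear_combination h4
  · rw [h (ys K m ε s), h (yy K m)]
    have e1 : ys K m ε s (0, i) + ys K m ε s (1, j) - ys K m ε s (2, i + j) =
        3 + dl ε s (0, i) + dl ε s (1, j) - dl ε s (2, i + j) := by
      unfold ys
      linear_combination yy_three K m i j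
    rw [e1, yy_three]
    have h4 := dl_three hK hS hε hεS s i j (by
      rintro ⟨h5, rfl⟩
      exact hne i h5 hset)
    rw [sign_mul, sign_mul, sign_pos h4, sign_pos (by norm_num : (0 : ℤ) < 3)]

/-- no number is the sum of two others -/
theorem no_sum {K m d : ℕ} {S : Finset ℤ} {τ : ℤ} (hK : 2 ≤ K)
    (hm : ∀ x ∈ S, 0 ≤ x ∧ x < m) (hτ : |τ| ≤ 2 * m) (hd : d ≤ m)
    {v1 v2 v3 : Fin 4 × ℤ} (h1 : v1 ∈ WW m d S τ) (h2 : v2 ∈ WW m d S τ)
    (h3 : v3 ∈ WW m d S τ) : yy K m v1 + yy K m v2 ≠ yy K m v3 := by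
  intro hcon
  have hK1 : (2 : ℤ) ≤ K := by exact_mod_cast hK
  have hone : |(1 : ℤ)| ≤ K := by rw [abs_one]; omega
  have hmone : |(-1 : ℤ)| ≤ K := by rw [abs_neg, abs_one]; omega
  have h0 : 1 * yy K m v1 + 1 * yy K m v2 + (-1) * yy K m v3 = 0 := by linear_combination hcon
  rcases form_cases hK hm hτ hd h1 h2 h3 hone hone hmone with ⟨Y, hY, h⟩ | ⟨hcs, -, -⟩ |
    ⟨c, i, j, hc0, hi, hj, hij, hset, h⟩
  · obtain ⟨η', hη', e'⟩ := h (fun _ => 0) (fun _ => by simp)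
    simp only [add_zero] at e'
    have h5 := sign_add_mul hη' hY
    rw [← e', h0, sign_zero] at h5
    exact hY (sign_eq_zero_iff.1 h5.symm)
  · have h5 := cs_sum 1 1 (-1) v1.1 v2.1 v3.1
    rw [hcs 0, hcs 1, hcs 2, hcs 3] at h5
    norm_num at h5
  · rw [h (yy K m), yy_three] at h0
    omega

/-- the numbers are different -/
theorem ys_inj {K m d : ℕ} {S : Finset ℤ} {τ : ℤ} (hK : 2 ≤ K)
    (hm : ∀ x ∈ S, 0 ≤ x ∧ x < m) (hτ : |τ| ≤ 2 * m) (hd : d ≤ m) {ε : ℤ → ℤ}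
    (hε : ∀ i, |ε i| ≤ 1) (s : ℤ)
    {v1 v2 : Fin 4 × ℤ} (h1 : v1 ∈ WW m d S τ) (h2 : v2 ∈ WW m d S τ)
    (heq : ys K m ε s v1 = ys K m ε s v2) : v1 = v2 := by
  have hK1 : (2 : ℤ) ≤ K := by exact_mod_cast hK
  have hone : |(1 : ℤ)| ≤ K := by rw [abs_one]; omega
  have hmone : |(-1 : ℤ)| ≤ K := by rw [abs_neg, abs_one]; omega
  have hzero : |(0 : ℤ)| ≤ K := by rw [abs_zero]; omega
  rcases form_cases hK hm hτ hd h1 h2 h2 hone hmone hzero with ⟨Y, hY, h⟩ | ⟨hcs, hk, -⟩ |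
    ⟨c, i, j, hc0, hi, hj, hij, hset, h⟩
  · obtain ⟨η, hη, e⟩ := h (dl ε s) (dl_abs hε s)
    have h5 := sign_add_mul hη hY
    have h6 : 1 * (yy K m v1 + dl ε s v1) + -1 * (yy K m v2 + dl ε s v2) +
      0 * (yy K m v2 + dl ε s v2) = 0 := by
      unfold ys at heq
      linear_combination heq
    rw [← e, h6, sign_zero] at h5
    exact absurd (sign_eq_zero_iff.1 h5.symm) hY
  · obtain ⟨c1, k1⟩ := v1
    obtain ⟨c2, k2⟩ := v2
    have h5 := hcs c1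
    simp only [cs, if_true] at h5 hk
    by_cases h6 : c2 = c1
    · subst h6
      have : k1 = k2 := by omega
      rw [this]
    · simp [h6] at h5
  · exfalso
    have h5 : ({(0, i), (1, j), (2, i + j)} : Finset (Fin 4 × ℤ)).card = 3 := by
      rw [Finset.card_eq_three]
      exact ⟨(0, i), (1, j), (2, i + j), by simp, by simp, by simp, rfl⟩
    rw [← hset] at h5
    have h6 : ({v1, v2, v2} : Finset (Fin 4 × ℤ)).card ≤ 2 := by
      have : ({v1, v2, v2} : Finset (Fin 4 × ℤ)) = {v1, v2} := by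
        ext v; simp
      rw [this]
      exact Finset.card_le_two
    omega

theorem ys_sum {K m : ℕ} {ε : ℤ → ℤ} {s i : ℤ} (h : ε i = 1) :
    ys K m ε s (0, i) + ys K m ε s (1, i - s) = ys K m ε s (2, i + (i - s)) := by
  have h1 := yy_three K m i (i - s)
  have e1 : dl ε s (0, i) = -1 := by simp [dl, h]
  have e2 : dl ε s (1, i - s) = -1 := by simp [dl, h]
  have e3 : dl ε s (2, i + (i - s)) = 1 := by
    have h2 : i + (i - s) + s = 2 * i := by ring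
    simp [dl, h2, h]
  unfold ys
  rw [e1, e2, e3]
  omega

theorem hc_range (c : Fin 4) : 1 ≤ hc c ∧ hc c ≤ 2 := by
  fin_cases c <;> simp [hc]

theorem ys_div (K m : ℕ) {ε : ℤ → ℤ} (hε : ∀ i, |ε i| ≤ 1) (s : ℤ) (v : Fin 4 × ℤ) :
    ys K m ε s v / 4 = yy K m v / 4 := by
  have h1 := abs_le.1 (dl_abs hε s v)
  have h2 := hc_range v.1
  have h3 : yy K m v = hc v.1 + 4 * (3 * K * (v.2 + (9 * K * m + 1) * zc K v.1)) := by
    unfold yy; ring
  unfold ys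
  rw [h3]
  omega

theorem zc_abs (K : ℕ) (hK : 2 ≤ K) (c : Fin 4) : |zc K c| ≤ 16 * K ^ 2 := by
  have hK1 : (2 : ℤ) ≤ K := by exact_mod_cast hK
  rw [abs_le]
  fin_cases c <;> simp [zc] <;> constructor <;> nlinarith

theorem ys_bound {K m d : ℕ} {S : Finset ℤ} {τ : ℤ} (hK : 2 ≤ K) (hm1 : 1 ≤ m)
    (hm : ∀ x ∈ S, 0 ≤ x ∧ x < m) (hτ : |τ| ≤ 2 * m) (hd : d ≤ m) {ε : ℤ → ℤ}
    (hε : ∀ i, |ε i| ≤ 1) (s : ℤ) {v : Fin 4 × ℤ} (hv : v ∈ WW m d S τ) :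
    |ys K m ε s v| ≤ 2000 * (K ^ 4 * m) := by
  have hK1 : (2 : ℤ) ≤ K := by exact_mod_cast hK
  have hm1' : (1 : ℤ) ≤ m := by exact_mod_cast hm1
  have h1 := dl_abs hε s v
  have h2 := hc_range v.1
  have h3 := place_abs hm hτ hd hv
  have h4 := zc_abs K hK v.1
  have h5 : |(9 * (K : ℤ) * m + 1) * zc K v.1| ≤ (9 * K * m + 1) * (16 * K ^ 2) := by
    rw [abs_mul, abs_of_pos (by positivity : (0 : ℤ) < 9 * K * m + 1)]
    exact mul_le_mul_of_nonneg_left h4 (by positivity)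
  have h6 : |v.2 + (9 * (K : ℤ) * m + 1) * zc K v.1| ≤ 3 * m + (9 * K * m + 1) * (16 * K ^ 2) :=
    (abs_add_le _ _).trans (add_le_add h3 h5)
  have h7 : |12 * (K : ℤ) * (v.2 + (9 * K * m + 1) * zc K v.1)| ≤
      12 * K * (3 * m + (9 * K * m + 1) * (16 * K ^ 2)) := by
    rw [abs_mul, abs_of_pos (by positivity : (0 : ℤ) < 12 * K)]
    exact mul_le_mul_of_nonneg_left h6 (by positivity)
  have h8 : |ys K m ε s v| ≤ 3 + 12 * K * (3 * m + (9 * K * m + 1) * (16 * K ^ 2)) := by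
    unfold ys yy
    rw [abs_le] at h1 h7 ⊢
    constructor <;> omega
  refine h8.trans ?_
  have a1 : (1 : ℤ) ≤ K := by omega
  have a2 : (1 : ℤ) ≤ K ^ 3 * m := by
    have := one_le_pow₀ a1 (n := 3)
    nlinarith
  have a3 : (K : ℤ) * m ≤ K ^ 4 * m := by
    have h9 : (K : ℤ) ≤ K ^ 4 := by
      calc (K : ℤ) = K ^ 1 := (pow_one _).symm
        _ ≤ K ^ 4 := pow_le_pow_right₀ a1 (by norm_num)
    exact mul_le_mul_of_nonneg_right h9 (by positivity)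
  have a4 : (K : ℤ) ^ 3 ≤ K ^ 4 * m := by
    have h9 : (K : ℤ) ^ 3 ≤ K ^ 4 := pow_le_pow_right₀ a1 (by norm_num)
    nlinarith [pow_pos (by omega : (0 : ℤ) < K) 4]
  have a5 : (1 : ℤ) ≤ K ^ 4 * m := by
    have := one_le_pow₀ a1 (n := 4)
    nlinarith
  have a6 : (3 : ℤ) + 12 * K * (3 * m + (9 * K * m + 1) * (16 * K ^ 2)) =
      3 + 36 * (K * m) + 1728 * (K ^ 4 * m) + 192 * K ^ 3 := by ring
  rw [a6]
  linarith

end Pool.Agent.J6H11.Sk3
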